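import Pool.Agent.Helper76.Caustic.Law
import Pool.Agent.Helper58.Bil.GeoDefs

/-!
# The base table (MP_190632_an)

String construction around `h = 1 + κ b`, `b` an even bump at the normal angles `0 mod π`.
-/

set_option autoImplicit false

namespace Pool.Agent.Helper76.Caustic

open Real Set Filter Topology


/-! ### the bump -/

/-- An even `π`-periodic bump supported near `0 mod π`. -/
noncomputable def bb (x : ℝ) : ℝ := smoothTransition (1 - 120 * sin x ^ 2)

lemma bb_smooth : ContDiff ℝ ((⊤ : ℕ∞) : WithTop ℕ∞) bb := by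
  unfold bb
  exact smoothTransition.contDiff.comp (by fun_prop)

lemma bb_even (x : ℝ) : bb (-x) = bb x := by simp [bb]

lemma bb_per (x : ℝ) : bb (x + π) = bb x := by simp [bb, sin_add_pi]

lemma bb_nonneg (x : ℝ) : 0 ≤ bb x := smoothTransition.nonneg _

lemma bb_le_one (x : ℝ) : bb x ≤ 1 := smoothTransition.le_one _

lemma bb_zero : bb 0 = 1 := by simp [bb]

lemma sin_tenth : (1 / 120 : ℝ) < sin (1 / 10) ^ 2 := by
  have h : (1 / 10 : ℝ) - (1 / 10) ^ 3 / 6 < sin (1 / 10) := by
    exact sin_gt_sub_cube (by norm_num)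
  have h2 : (0.0995 : ℝ) < sin (1 / 10) := by
    refine lt_trans ?_ h
    norm_num
  nlinarith

lemma bb_eq_zero {x : ℝ} (h1 : 1 / 10 ≤ x) (h2 : x ≤ π - 1 / 10) : bb x = 0 := by
  apply smoothTransition.zero_of_nonpos
  have hs : sin (1 / 10) ≤ sin x := by
    rcases le_or_gt x (π / 2) with hx | hx
    · exact sin_le_sin_of_le_of_le_pi_div_two (by linarith [pi_pos]) hx h1
    · rw [← sin_pi_sub x]
      exact sin_le_sin_of_le_of_le_pi_div_two (by linarith [pi_pos]) (by linarith) (by linarith)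
  have h0 : 0 < sin (1 / 10) := sin_pos_of_pos_of_lt_pi (by norm_num) (by linarith [pi_gt_three])
  have := sin_tenth
  nlinarith

lemma bb_eq_zero' {x : ℝ} (h1 : 1 / 10 ≤ |x|) (h2 : |x| ≤ π - 1 / 10) : bb x = 0 := by
  rcases abs_cases x with ⟨h, _⟩ | ⟨h, _⟩
  · rw [h] at h1 h2; exact bb_eq_zero h1 h2
  · rw [h] at h1 h2; rw [← bb_even]; exact bb_eq_zero h1 h2

/-- total mass of the bump -/
noncomputable def JJ : ℝ := ∫ x in (-(1 / 10) : ℝ)..(1 / 10), bb x

lemma JJ_pos : 0 < JJ := by
  unfold JJ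
  apply intervalIntegral.integral_pos (by norm_num) bb_smooth.continuous.continuousOn
  · intro x _; exact bb_nonneg x
  · exact ⟨0, ⟨by norm_num, by norm_num⟩, by rw [bb_zero]; norm_num⟩

lemma integral_bb {a b : ℝ} (ha : a ≤ -(1 / 10)) (ha' : -(π - 1 / 10) ≤ a) (hb : 1 / 10 ≤ b)
    (hb' : b ≤ π - 1 / 10) : ∫ x in a..b, bb x = JJ := by
  have hi : ∀ u v : ℝ, IntervalIntegrable bb MeasureTheory.volume u v :=
    fun u v => bb_smooth.continuous.intervalIntegrable u v
  rw [← intervalIntegral.integral_add_adjacent_intervals (hi a (-(1 / 10))) (hi (-(1 / 10)) b),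
    ← intervalIntegral.integral_add_adjacent_intervals (hi (-(1 / 10)) (1 / 10)) (hi (1 / 10) b)]
  have e1 : ∫ x in a..(-(1 / 10)), bb x = 0 := by
    rw [intervalIntegral.integral_congr (g := fun _ => 0)]
    · simp
    · intro x hx
      rw [uIcc_of_le ha] at hx
      apply bb_eq_zero'
      · rw [abs_of_nonpos (by linarith [hx.2])]; linarith [hx.2]
      · rw [abs_of_nonpos (by linarith [hx.2])]; linarith [hx.1]
  have e2 : ∫ x in (1 / 10 : ℝ)..b, bb x = 0 := by
    rw [intervalIntegral.integral_congr (g := fun _ => 0)]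
    · simp
    · intro x hx
      rw [uIcc_of_le hb] at hx
      exact bb_eq_zero hx.1 (by linarith [hx.2])
  rw [e1, e2, zero_add, add_zero]
  rfl

lemma integral_bb_zero {a b : ℝ} (ha : 1 / 10 ≤ a) (hab : a ≤ b)
    (hb' : b ≤ π - 1 / 10) : ∫ x in a..b, bb x = 0 := by
  rw [intervalIntegral.integral_congr (g := fun _ => 0)]
  · simp
  · intro x hx
    rw [uIcc_of_le hab] at hx
    exact bb_eq_zero (by linarith [hx.1]) (by linarith [hx.2])

/-- A bound for `bb + bb''`. -/
lemma exists_bound : ∃ M > 0, ∀ x, |bb x + deriv (deriv bb) x| ≤ M := by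
  have hc : Continuous (fun x => bb x + deriv (deriv bb) x) := by
    have h1 : ContDiff ℝ ((⊤ : ℕ∞) : WithTop ℕ∞) (deriv bb) := (contDiff_infty_iff_deriv.1 bb_smooth).2
    have h2 : ContDiff ℝ ((⊤ : ℕ∞) : WithTop ℕ∞) (deriv (deriv bb)) := (contDiff_infty_iff_deriv.1 h1).2
    exact bb_smooth.continuous.add h2.continuous
  have hp : Function.Periodic (fun x => bb x + deriv (deriv bb) x) π := by
    have p0 : Function.Periodic bb π := bb_per
    have p1 : Function.Periodic (deriv bb) π := by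
      intro x
      rw [← deriv_comp_add_const]
      congr 1
      funext y; exact p0 y
    have p2 : Function.Periodic (deriv (deriv bb)) π := by
      intro x
      rw [← deriv_comp_add_const]
      congr 1
      funext y; exact p1 y
    exact p0.add p2
  obtain ⟨C, hC⟩ := (isCompact_Icc (a := (0:ℝ)) (b := 0 + π)).exists_bound_of_continuousOn
    hc.continuousOn
  refine ⟨|C| + 1, by positivity, fun x => ?_⟩
  obtain ⟨y, hy, hxy⟩ := hp.exists_mem_Ico pi_pos x 0
  have h1 := hC y ⟨hy.1, hy.2.le⟩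
  rw [Real.norm_eq_abs] at h1
  rw [hxy]
  linarith [le_abs_self C]

/-! ### a scalar implicit function -/

lemma smooth_implicit {F : ℝ × ℝ → ℝ} {d : ℝ → ℝ} {x : ℝ}
    (hF : ContDiffAt ℝ ((⊤ : ℕ∞) : WithTop ℕ∞) F (x, d x)) (hz : ∀ y, F (y, d y) = 0)
    {c : ℝ} (hc : c ≠ 0) (hd : HasDerivAt (fun y => F (x, y)) c (d x))
    (hcont : ContinuousAt d x) : ContDiffAt ℝ ((⊤ : ℕ∞) : WithTop ℕ∞) d x := by
  have hn : ((⊤ : ℕ∞) : WithTop ℕ∞) ≠ 0 := by simp
  have hinv : (fderiv ℝ F (x, d x) ∘L .inr ℝ ℝ ℝ).IsInvertible := by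
    have h1 : fderiv ℝ F (x, d x) ∘L .inr ℝ ℝ ℝ = ContinuousLinearMap.toSpanSingleton ℝ c := by
      ext
      have h2 : HasFDerivAt F (fderiv ℝ F (x, d x)) (x, d x) :=
        (hF.differentiableAt hn).hasFDerivAt
      have h3 : HasFDerivAt (fun y : ℝ => ((x, y) : ℝ × ℝ)) (.inr ℝ ℝ ℝ) (d x) :=
        hasFDerivAt_prodMk_right x (d x)
      have h4 := (h2.comp (d x) h3).hasDerivAt
      have h5 := h4.unique hd
      simpa using h5
    rw [h1]
    refine ⟨ContinuousLinearEquiv.unitsEquivAut ℝ (Units.mk0 c hc), ?_⟩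
    ext
    simp
  have key := ContDiffAt.eventually_apply_eq_iff_implicitFunction hF hn hinv
  have hcd := ContDiffAt.contDiffAt_implicitFunction hF hn hinv
  have ht : Tendsto (fun y => (y, d y)) (𝓝 x) (𝓝 (x, d x)) := by
    exact (continuousAt_id.prodMk hcont)
  have h6 := ht.eventually key
  refine hcd.congr_of_eventuallyEq ?_
  filter_upwards [h6] with y hy
  exact (hy.1 (by rw [hz, hz])).symm

/-! ### the table -/

section Table

variable (κ L : ℝ)

noncomputable def bh (x : ℝ) : ℝ := 1 + κ * bb x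
noncomputable def bh1 (x : ℝ) : ℝ := κ * deriv bb x
noncomputable def bh2 (x : ℝ) : ℝ := κ * deriv (deriv bb) x
/-- primitive of `bh` -/
noncomputable def bI (x : ℝ) : ℝ := ∫ y in (0 : ℝ)..x, bh κ y
/-- the string function -/
noncomputable def sF (p : ℝ × ℝ) : ℝ :=
  tan p.2 * (bh κ (p.1 + p.2) + bh κ (p.1 - p.2)) - (bI κ (p.1 + p.2) - bI κ (p.1 - p.2)) - L

lemma deriv_bb_smooth : ContDiff ℝ ((⊤ : ℕ∞) : WithTop ℕ∞) (deriv bb) := (contDiff_infty_iff_deriv.1 bb_smooth).2

lemma bh_smooth : ContDiff ℝ ((⊤ : ℕ∞) : WithTop ℕ∞) (bh κ) := by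
  unfold bh
  exact contDiff_const.add (contDiff_const.mul bb_smooth)

lemma bh_d1 (x : ℝ) : HasDerivAt (bh κ) (bh1 κ x) x := by
  have h1 : HasDerivAt bb (deriv bb x) x :=
    ((bb_smooth.differentiable (by simp)) x).hasDerivAt
  exact (h1.const_mul κ).const_add 1

lemma bh_d2 (x : ℝ) : HasDerivAt (bh1 κ) (bh2 κ x) x := by
  have h1 : HasDerivAt (deriv bb) (deriv (deriv bb) x) x :=
    ((deriv_bb_smooth.differentiable (by simp)) x).hasDerivAt
  exact h1.const_mul κ

lemma bh_even (x : ℝ) : bh κ (-x) = bh κ x := by simp [bh, bb_even]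

lemma bh_per (x : ℝ) : bh κ (x + π) = bh κ x := by simp [bh, bb_per]

lemma bI_deriv (x : ℝ) : HasDerivAt (bI κ) (bh κ x) x := by
  unfold bI
  exact intervalIntegral.integral_hasDerivAt_right
    ((bh_smooth κ).continuous.intervalIntegrable _ _)
    ((bh_smooth κ).continuous.stronglyMeasurableAtFilter _ _) (bh_smooth κ).continuous.continuousAt

lemma bI_smooth : ContDiff ℝ ((⊤ : ℕ∞) : WithTop ℕ∞) (bI κ) := by
  rw [contDiff_infty_iff_deriv]
  refine ⟨fun x => (bI_deriv κ x).differentiableAt, ?_⟩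
  have : deriv (bI κ) = bh κ := funext fun x => (bI_deriv κ x).deriv
  rw [this]
  exact bh_smooth κ

lemma bI_sub (a b : ℝ) : bI κ b - bI κ a = (b - a) + κ * ∫ x in a..b, bb x := by
  have hi : ∀ u v : ℝ, IntervalIntegrable bb MeasureTheory.volume u v :=
    fun u v => bb_smooth.continuous.intervalIntegrable u v
  unfold bI
  rw [intervalIntegral.integral_interval_sub_left
    ((bh_smooth κ).continuous.intervalIntegrable _ _)
    ((bh_smooth κ).continuous.intervalIntegrable _ _)]
  unfold bh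
  rw [intervalIntegral.integral_add (by simp) ((hi a b).const_mul κ)]
  simp

lemma sF_smooth {p : ℝ × ℝ} (hp : cos p.2 ≠ 0) : ContDiffAt ℝ ((⊤ : ℕ∞) : WithTop ℕ∞) (sF κ L) p := by
  have h1 : ContDiffAt ℝ ((⊤ : ℕ∞) : WithTop ℕ∞) (fun p : ℝ × ℝ => tan p.2) p :=
    (contDiffAt_tan.2 hp).comp p contDiffAt_snd
  have h2 : ContDiff ℝ ((⊤ : ℕ∞) : WithTop ℕ∞) (fun p : ℝ × ℝ => bh κ (p.1 + p.2) + bh κ (p.1 - p.2)) :=
    ((bh_smooth κ).comp (contDiff_fst.add contDiff_snd)).add
      ((bh_smooth κ).comp (contDiff_fst.sub contDiff_snd))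
  have h3 : ContDiff ℝ ((⊤ : ℕ∞) : WithTop ℕ∞) (fun p : ℝ × ℝ => bI κ (p.1 + p.2) - bI κ (p.1 - p.2)) :=
    ((bI_smooth κ).comp (contDiff_fst.add contDiff_snd)).sub
      ((bI_smooth κ).comp (contDiff_fst.sub contDiff_snd))
  exact ((h1.mul h2.contDiffAt).sub h3.contDiffAt).sub contDiffAt_const

lemma sF_deriv (x : ℝ) {y : ℝ} (hy : cos y ≠ 0) :
    HasDerivAt (fun y => sF κ L (x, y))
      (tan y * (tan y * (bh κ (x + y) + bh κ (x - y)) + (bh1 κ (x + y) - bh1 κ (x - y)))) y := by
  have ap : HasDerivAt (fun y => x + y) 1 y := by simpa using (hasDerivAt_id y).const_add x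
  have am : HasDerivAt (fun y => x - y) (-1) y := by simpa using (hasDerivAt_id y).const_sub x
  have t := Real.hasDerivAt_tan hy
  have hp := (bh_d1 κ (x + y)).comp y ap
  have hm := (bh_d1 κ (x - y)).comp y am
  have ip := (bI_deriv κ (x + y)).comp y ap
  have im := (bI_deriv κ (x - y)).comp y am
  have := ((t.mul (hp.add hm)).sub (ip.sub im)).sub_const L
  have e : tan y * (tan y * (bh κ (x + y) + bh κ (x - y)) + (bh1 κ (x + y) - bh1 κ (x - y)))
      = 1 / cos y ^ 2 * (bh κ (x + y) + bh κ (x - y)) + tan y * (bh1 κ (x + y) * 1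
        + bh1 κ (x - y) * -1) - (bh κ (x + y) * 1 - bh κ (x - y) * -1) := by
    have h1 : 1 / cos y ^ 2 = 1 + tan y ^ 2 := by
      rw [tan_eq_sin_div_cos]
      field_simp
      rw [cos_sq_add_sin_sq]
    rw [h1]
    ring
  rw [e]
  exact this

end Table

/-- Standing assumptions on the parameters. -/
structure Par (κ L : ℝ) : Prop where
  k : |κ| ≤ 1 / 2
  kb : ∀ x, |κ * (bb x + deriv (deriv bb) x)| ≤ 1 / 2
  L0 : 0 < L
  L2 : L ≤ 2

namespace Par

variable {κ L : ℝ} (P : Par κ L)
include P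

lemma h_lb (x : ℝ) : 1 / 2 ≤ bh κ x := by
  have h1 := P.k
  rw [abs_le] at h1
  have := bb_nonneg x
  have := bb_le_one x
  unfold bh
  nlinarith

lemma h_ub (x : ℝ) : bh κ x ≤ 3 / 2 := by
  have h1 := P.k
  rw [abs_le] at h1
  have := bb_nonneg x
  have := bb_le_one x
  unfold bh
  nlinarith

lemma curv (x : ℝ) : 1 / 2 ≤ bh κ x + bh2 κ x := by
  have h1 := P.kb x
  rw [abs_le] at h1
  unfold bh bh2
  linarith

lemma supp : Supp (bh κ) (bh1 κ) (bh2 κ) where
  d1 := bh_d1 κ
  d2 := bh_d2 κ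
  per := fun x => by
    have : x + 2 * π = x + π + π := by ring
    rw [this, bh_per, bh_per]
  pos := fun x => by linarith [P.curv x]

lemma slope_pos (x : ℝ) {y : ℝ} (h0 : 0 < y) (h1 : y < π / 2) :
    0 < tan y * (bh κ (x + y) + bh κ (x - y)) + (bh1 κ (x + y) - bh1 κ (x - y)) := by
  have hc : 0 < cos y := cos_pos_of_mem_Ioo ⟨by linarith, h1⟩
  have hs : 0 < sin y := sin_pos_of_pos_of_lt_pi h0 (by linarith)
  have k1 := (P.supp.strict_ip (θ := x - y) (δ := 2 * y) (by linarith) (by linarith)).1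
  have k2 := (P.supp.strict_ip (θ := x + y) (δ := 2 * y) (by linarith) (by linarith)).2
  have e1 : x - y + 2 * y = x + y := by ring
  have e2 : x + y - 2 * y = x - y := by ring
  rw [e1, sin_two_mul, cos_two_mul] at k1
  rw [e2, sin_two_mul, cos_two_mul] at k2
  have hcs := sin_sq_add_cos_sq y
  have k3 : (bh1 κ (x - y) - bh1 κ (x + y)) * (2 * sin y * cos y)
      < (bh κ (x + y) + bh κ (x - y)) * (2 * sin y ^ 2) := by
    have : (bh κ (x + y) + bh κ (x - y)) * (2 * sin y ^ 2)
        = (bh κ (x + y) + bh κ (x - y)) * (1 - (2 * cos y ^ 2 - 1)) := by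
      rw [← hcs]; ring
    rw [this]
    linarith
  have k4 : (bh1 κ (x - y) - bh1 κ (x + y)) * cos y < (bh κ (x + y) + bh κ (x - y)) * sin y := by
    have h2 : 0 < 2 * sin y := by linarith
    apply lt_of_mul_lt_mul_left _ h2.le
    linarith
  rw [tan_eq_sin_div_cos]
  have k5 : 0 < (sin y / cos y * (bh κ (x + y) + bh κ (x - y))
      + (bh1 κ (x + y) - bh1 κ (x - y))) * cos y := by
    have : (sin y / cos y * (bh κ (x + y) + bh κ (x - y))
      + (bh1 κ (x + y) - bh1 κ (x - y))) * cos y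
      = (bh κ (x + y) + bh κ (x - y)) * sin y - (bh1 κ (x - y) - bh1 κ (x + y)) * cos y := by
      field_simp
      ring
    rw [this]; linarith
  exact (mul_pos_iff_of_pos_right hc).1 k5

lemma mono (x : ℝ) : StrictMonoOn (fun y => sF κ L (x, y)) (Ico 0 (π / 2)) := by
  have hcos : ∀ y ∈ Ico 0 (π / 2), cos y ≠ 0 := fun y hy =>
    (cos_pos_of_mem_Ioo ⟨by linarith [hy.1, pi_pos], hy.2⟩).ne'
  apply strictMonoOn_of_deriv_pos (convex_Ico _ _)
  · intro y hy
    exact (sF_deriv κ L x (hcos y hy)).continuousAt.continuousWithinAt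
  · intro y hy
    rw [interior_Ico] at hy
    rw [(sF_deriv κ L x (hcos y ⟨hy.1.le, hy.2⟩)).deriv]
    exact mul_pos (tan_pos_of_pos_of_lt_pi_div_two hy.1 hy.2) (P.slope_pos x hy.1 hy.2)

lemma at_zero (x : ℝ) : sF κ L (x, 0) < 0 := by
  simp [sF]
  exact P.L0

lemma at_top (x : ℝ) : 0 < sF κ L (x, arctan 8) := by
  have h1 : 0 < arctan 8 := by rw [arctan_pos]; norm_num
  have h2 : arctan 8 < π / 2 := arctan_lt_pi_div_two 8
  simp only [sF, tan_arctan]
  have h3 : bI κ (x + arctan 8) - bI κ (x - arctan 8) ≤ 2 * arctan 8 * (3 / 2) := by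
    rw [bI_sub]
    have h4 : |∫ y in (x - arctan 8)..(x + arctan 8), bb y| ≤ 2 * arctan 8 := by
      have := intervalIntegral.norm_integral_le_of_norm_le_const (a := x - arctan 8)
        (b := x + arctan 8) (f := bb) (C := 1) (fun y _ => by
          rw [Real.norm_eq_abs, abs_of_nonneg (bb_nonneg y)]; exact bb_le_one y)
      rw [Real.norm_eq_abs] at this
      have e : |x + arctan 8 - (x - arctan 8)| = 2 * arctan 8 := by
        rw [abs_of_pos (by linarith)]; ring
      rw [e] at this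
      linarith
    have h5 := P.k
    have h6 : κ * ∫ y in (x - arctan 8)..(x + arctan 8), bb y ≤ 1 / 2 * (2 * arctan 8) := by
      calc κ * ∫ y in (x - arctan 8)..(x + arctan 8), bb y
          ≤ |κ * ∫ y in (x - arctan 8)..(x + arctan 8), bb y| := le_abs_self _
        _ = |κ| * |∫ y in (x - arctan 8)..(x + arctan 8), bb y| := abs_mul _ _
        _ ≤ 1 / 2 * (2 * arctan 8) := by gcongr
    linarith
  have := P.h_lb (x + arctan 8)
  have := P.h_lb (x - arctan 8)
  have := P.L2
  have := pi_lt_d2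
  linarith

lemma exists_zero (x : ℝ) : ∃ y, 0 < y ∧ y < π / 2 ∧ sF κ L (x, y) = 0 := by
  have h1 : 0 < arctan 8 := by rw [arctan_pos]; norm_num
  have h2 : arctan 8 < π / 2 := arctan_lt_pi_div_two 8
  have hc : ContinuousOn (fun y => sF κ L (x, y)) (Icc 0 (arctan 8)) := by
    intro y hy
    have : cos y ≠ 0 :=
      (cos_pos_of_mem_Ioo ⟨by linarith [hy.1, pi_pos], by linarith [hy.2]⟩).ne'
    exact (sF_deriv κ L x this).continuousAt.continuousWithinAt
  obtain ⟨y, hy, hy0⟩ := intermediate_value_Icc h1.le hc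
    (⟨(P.at_zero x).le, (P.at_top x).le⟩ : (0:ℝ) ∈ Icc _ _)
  refine ⟨y, ?_, by linarith [hy.2], hy0⟩
  rcases eq_or_lt_of_le hy.1 with h | h
  · exfalso
    simp only at hy0
    rw [← h] at hy0
    exact absurd hy0 (P.at_zero x).ne
  · exact h

end Par

/-- the half angle -/
noncomputable def dd {κ L : ℝ} (P : Par κ L) (x : ℝ) : ℝ := (P.exists_zero x).choose

namespace Par

variable {κ L : ℝ} (P : Par κ L)

lemma dd_pos (x : ℝ) : 0 < dd P x := (P.exists_zero x).choose_spec.1
lemma dd_lt (x : ℝ) : dd P x < π / 2 := (P.exists_zero x).choose_spec.2.1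
lemma dd_eq (x : ℝ) : sF κ L (x, dd P x) = 0 := (P.exists_zero x).choose_spec.2.2

lemma dd_cos (x : ℝ) : 0 < cos (dd P x) :=
  cos_pos_of_mem_Ioo ⟨by linarith [P.dd_pos x, pi_pos], P.dd_lt x⟩

lemma dd_sin (x : ℝ) : 0 < sin (dd P x) :=
  sin_pos_of_pos_of_lt_pi (P.dd_pos x) (by linarith [P.dd_lt x, pi_pos])

lemma dd_unique {x y : ℝ} (h0 : 0 ≤ y) (h1 : y < π / 2) (h : sF κ L (x, y) = 0) : dd P x = y :=
  (P.mono x).injOn ⟨(P.dd_pos x).le, P.dd_lt x⟩ ⟨h0, h1⟩ (by rw [P.dd_eq x, h])

lemma dd_continuousAt (x : ℝ) : ContinuousAt (dd P) x := by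
  rw [Metric.continuousAt_iff']
  intro ε hε
  -- margins
  have hp := P.dd_pos x
  have hl := P.dd_lt x
  set η := min (ε / 2) (min (dd P x / 2) ((π / 2 - dd P x) / 2)) with hη
  have hη0 : 0 < η := by
    apply lt_min (by linarith) (lt_min (by linarith) (by linarith))
  have hη1 : η ≤ ε / 2 := min_le_left _ _
  have hη2 : η ≤ dd P x / 2 := (min_le_right _ _).trans (min_le_left _ _)
  have hη3 : η ≤ (π / 2 - dd P x) / 2 := (min_le_right _ _).trans (min_le_right _ _)
  have hmem : dd P x ∈ Ico 0 (π / 2) := ⟨hp.le, hl⟩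
  have hma : dd P x - η ∈ Ico 0 (π / 2) := ⟨by linarith, by linarith⟩
  have hmb : dd P x + η ∈ Ico 0 (π / 2) := ⟨by linarith, by linarith⟩
  have ka : sF κ L (x, dd P x - η) < 0 := by
    rw [← P.dd_eq x]; exact P.mono x hma hmem (by linarith)
  have kb : 0 < sF κ L (x, dd P x + η) := by
    rw [← P.dd_eq x]; exact P.mono x hmem hmb (by linarith)
  have ca : ContinuousAt (fun z => sF κ L (z, dd P x - η)) x := by
    have : cos (dd P x - η) ≠ 0 :=
      (cos_pos_of_mem_Ioo ⟨by linarith [pi_pos], by linarith⟩).ne'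
    exact (sF_smooth κ L (p := (x, dd P x - η)) this).continuousAt.comp
      (f := fun z => (z, dd P x - η)) (by fun_prop)
  have cb : ContinuousAt (fun z => sF κ L (z, dd P x + η)) x := by
    have : cos (dd P x + η) ≠ 0 :=
      (cos_pos_of_mem_Ioo ⟨by linarith [pi_pos], by linarith⟩).ne'
    exact (sF_smooth κ L (p := (x, dd P x + η)) this).continuousAt.comp
      (f := fun z => (z, dd P x + η)) (by fun_prop)
  filter_upwards [ca.eventually_lt continuousAt_const ka,
    continuousAt_const.eventually_lt cb kb] with z hz1 hz2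
  have hzm : dd P z ∈ Ico 0 (π / 2) := ⟨(P.dd_pos z).le, P.dd_lt z⟩
  have l1 : dd P x - η < dd P z := by
    by_contra hcon
    push Not at hcon
    have h3 : sF κ L (z, dd P z) ≤ sF κ L (z, dd P x - η) := (P.mono z).monotoneOn hzm hma hcon
    rw [P.dd_eq z] at h3
    linarith
  have l2 : dd P z < dd P x + η := by
    by_contra hcon
    push Not at hcon
    have h3 : sF κ L (z, dd P x + η) ≤ sF κ L (z, dd P z) := (P.mono z).monotoneOn hmb hzm hcon
    rw [P.dd_eq z] at h3
    linarith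
  rw [Real.dist_eq, abs_lt]
  constructor <;> linarith

lemma dd_smooth : ContDiff ℝ ((⊤ : ℕ∞) : WithTop ℕ∞) (dd P) := by
  rw [contDiff_iff_contDiffAt]
  intro x
  refine smooth_implicit (F := sF κ L) (c := _) (sF_smooth κ L (P.dd_cos x).ne')
    (fun y => P.dd_eq y) ?_ (sF_deriv κ L x (P.dd_cos x).ne') (P.dd_continuousAt x)
  exact (mul_pos (tan_pos_of_pos_of_lt_pi_div_two (P.dd_pos x) (P.dd_lt x))
    (P.slope_pos x (P.dd_pos x) (P.dd_lt x))).ne'

lemma sF_neg (x y : ℝ) : sF κ L (-x, y) = sF κ L (x, y) := by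
  have e1 : bI κ (-x + y) - bI κ (-x - y) = bI κ (x + y) - bI κ (x - y) := by
    have hodd : ∀ z, bI κ (-z) = - bI κ z := by
      intro z
      unfold bI
      have := intervalIntegral.integral_comp_neg (a := 0) (b := z) (bh κ)
      simp only [bh_even, neg_zero] at this
      rw [this, intervalIntegral.integral_symm]
    have e2 : -x + y = -(x - y) := by ring
    have e3 : -x - y = -(x + y) := by ring
    rw [e2, e3, hodd, hodd]; ring
  have e4 : bh κ (-x + y) = bh κ (x - y) := by rw [← bh_even]; congr 1; ring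
  have e5 : bh κ (-x - y) = bh κ (x + y) := by rw [← bh_even]; congr 1; ring
  simp only [sF]
  rw [e1, e4, e5]
  ring

lemma sF_per (x y : ℝ) : sF κ L (x + π, y) = sF κ L (x, y) := by
  have e1 : bI κ (x + π + y) - bI κ (x + π - y) = bI κ (x + y) - bI κ (x - y) := by
    rw [bI_sub, bI_sub]
    have := intervalIntegral.integral_comp_add_right (a := x - y) (b := x + y) bb π
    simp only [bb_per] at this
    rw [this]
    have e2 : x - y + π = x + π - y := by ring
    have e3 : x + y + π = x + π + y := by ring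
    rw [e2, e3]; ring
  have e4 : bh κ (x + π + y) = bh κ (x + y) := by
    rw [← bh_per κ (x + y)]; congr 1; ring
  have e5 : bh κ (x + π - y) = bh κ (x - y) := by
    rw [← bh_per κ (x - y)]; congr 1; ring
  simp only [sF]
  rw [e1, e4, e5]

lemma dd_even (x : ℝ) : dd P (-x) = dd P x :=
  P.dd_unique (P.dd_pos x).le (P.dd_lt x) (by rw [sF_neg, P.dd_eq])

lemma dd_per (x : ℝ) : dd P (x + π) = dd P x :=
  P.dd_unique (P.dd_pos x).le (P.dd_lt x) (by rw [sF_per, P.dd_eq])

end Par

/-- The support function of the table. -/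
noncomputable def bH {κ L : ℝ} (P : Par κ L) (x : ℝ) : ℝ :=
  (bh κ (x + dd P x) + bh κ (x - dd P x)) / (2 * cos (dd P x))

/-- Its derivative. -/
noncomputable def bH1 {κ L : ℝ} (P : Par κ L) (x : ℝ) : ℝ :=
  (bh κ (x + dd P x) - bh κ (x - dd P x)) / (2 * sin (dd P x))

namespace Par

variable {κ L : ℝ} (P : Par κ L)

lemma law_p (x : ℝ) : bh κ (x + dd P x) = bH P x * cos (dd P x) + bH1 P x * sin (dd P x) := by
  have := (P.dd_cos x).ne'
  have := (P.dd_sin x).ne'
  unfold bH bH1
  field_simp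
  ring

lemma law_m (x : ℝ) : bh κ (x - dd P x) = bH P x * cos (dd P x) - bH1 P x * sin (dd P x) := by
  have := (P.dd_cos x).ne'
  have := (P.dd_sin x).ne'
  unfold bH bH1
  field_simp
  ring

lemma bH_smooth : ContDiff ℝ ((⊤ : ℕ∞) : WithTop ℕ∞) (bH P) := by
  unfold bH
  apply ContDiff.div
  · exact ((bh_smooth κ).comp (contDiff_id.add P.dd_smooth)).add
      ((bh_smooth κ).comp (contDiff_id.sub P.dd_smooth))
  · exact contDiff_const.mul (contDiff_cos.comp P.dd_smooth)
  · intro x
    have := (P.dd_cos x).ne'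
    positivity

lemma bH_alt (x : ℝ) : bH P x = (L + (bI κ (x + dd P x) - bI κ (x - dd P x)))
    / (2 * sin (dd P x)) := by
  have h := P.dd_eq x
  simp only [sF] at h
  have hc := (P.dd_cos x).ne'
  have hs := (P.dd_sin x).ne'
  have h2 : L + (bI κ (x + dd P x) - bI κ (x - dd P x))
      = tan (dd P x) * (bh κ (x + dd P x) + bh κ (x - dd P x)) := by linarith
  rw [h2, tan_eq_sin_div_cos]
  unfold bH
  field_simp

lemma bH_deriv (x : ℝ) : HasDerivAt (bH P) (bH1 P x) x := by
  have hd : HasDerivAt (dd P) (deriv (dd P) x) x :=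
    ((P.dd_smooth.differentiable (by simp)) x).hasDerivAt
  have ip := (bI_deriv κ (x + dd P x)).comp x ((hasDerivAt_id x).add hd)
  have im := (bI_deriv κ (x - dd P x)).comp x ((hasDerivAt_id x).sub hd)
  have hs := (P.dd_sin x).ne'
  have hc := (P.dd_cos x).ne'
  have h2s : 2 * sin (dd P x) ≠ 0 := by positivity
  have h := ((ip.sub im).const_add L).div ((hd.sin).const_mul 2) h2s
  have e : bH P = fun x => (L + (bI κ (x + dd P x) - bI κ (x - dd P x)))
    / (2 * sin (dd P x)) := funext P.bH_alt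
  rw [e]
  have e2 : L + (bI κ (x + dd P x) - bI κ (x - dd P x)) = bH P x * (2 * sin (dd P x)) := by
    rw [P.bH_alt x]; field_simp
  have e3 : bh κ (x + dd P x) + bh κ (x - dd P x) = bH P x * (2 * cos (dd P x)) := by
    unfold bH; field_simp
  refine h.congr_deriv ?_
  have e2' : (L + ((bI κ ∘ (id + dd P) - bI κ ∘ (id - dd P) : ℝ → ℝ) x))
      = bH P x * (2 * sin (dd P x)) := e2
  rw [e2']
  unfold bH1
  rw [div_eq_div_iff (by positivity) h2s]
  linear_combination (deriv (dd P) x * (2 * sin (dd P x)) ^ 2) * e3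

lemma bH1_smooth : ContDiff ℝ ((⊤ : ℕ∞) : WithTop ℕ∞) (bH1 P) := by
  have : deriv (bH P) = bH1 P := funext fun x => (P.bH_deriv x).deriv
  rw [← this]
  exact (contDiff_infty_iff_deriv.1 P.bH_smooth).2

lemma bH_even (x : ℝ) : bH P (-x) = bH P x := by
  unfold bH
  rw [P.dd_even]
  have e4 : bh κ (-x + dd P x) = bh κ (x - dd P x) := by rw [← bh_even]; congr 1; ring
  have e5 : bh κ (-x - dd P x) = bh κ (x + dd P x) := by rw [← bh_even]; congr 1; ring
  rw [e4, e5, add_comm]

lemma bH_per (x : ℝ) : bH P (x + π) = bH P x := by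
  unfold bH
  rw [P.dd_per]
  have e4 : bh κ (x + π + dd P x) = bh κ (x + dd P x) := by
    rw [← bh_per κ (x + dd P x)]; congr 1; ring
  have e5 : bh κ (x + π - dd P x) = bh κ (x - dd P x) := by
    rw [← bh_per κ (x - dd P x)]; congr 1; ring
  rw [e4, e5]

lemma bH_curv (x : ℝ) : 0 < bH P x + deriv (bH1 P) x := by
  have hd : HasDerivAt (dd P) (deriv (dd P) x) x :=
    ((P.dd_smooth.differentiable (by simp)) x).hasDerivAt
  have hd1 : HasDerivAt (bH1 P) (deriv (bH1 P) x) x :=
    ((P.bH1_smooth.differentiable (by simp)) x).hasDerivAt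
  exact (curv_pos P.supp (P.dd_pos x) (P.dd_lt x) hd (P.bH_deriv x) hd1
    (Eventually.of_forall P.law_p) (Eventually.of_forall P.law_m)).1

lemma dd_deriv (x : ℝ) : 0 < 1 + deriv (dd P) x ∧ 0 < 1 - deriv (dd P) x := by
  have hd : HasDerivAt (dd P) (deriv (dd P) x) x :=
    ((P.dd_smooth.differentiable (by simp)) x).hasDerivAt
  have hd1 : HasDerivAt (bH1 P) (deriv (bH1 P) x) x :=
    ((P.bH1_smooth.differentiable (by simp)) x).hasDerivAt
  exact (curv_pos P.supp (P.dd_pos x) (P.dd_lt x) hd (P.bH_deriv x) hd1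
    (Eventually.of_forall P.law_p) (Eventually.of_forall P.law_m)).2

lemma mono_sub : StrictMono (fun x => x - dd P x) := by
  apply strictMono_of_deriv_pos
  intro x
  have hd : HasDerivAt (dd P) (deriv (dd P) x) x :=
    ((P.dd_smooth.differentiable (by simp)) x).hasDerivAt
  have h1 : HasDerivAt (fun x => x - dd P x) (1 - deriv (dd P) x) x := (hasDerivAt_id x).sub hd
  rw [h1.deriv]
  exact (P.dd_deriv x).2

lemma mono_add : StrictMono (fun x => x + dd P x) := by
  apply strictMono_of_deriv_pos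
  intro x
  have hd : HasDerivAt (dd P) (deriv (dd P) x) x :=
    ((P.dd_smooth.differentiable (by simp)) x).hasDerivAt
  have h1 : HasDerivAt (fun x => x + dd P x) (1 + deriv (dd P) x) x := (hasDerivAt_id x).add hd
  rw [h1.deriv]
  exact (P.dd_deriv x).1

lemma bH_gt (x : ℝ) : bh κ x < bH P x :=
  h_lt_H P.supp (P.dd_pos x) (P.dd_lt x) (P.law_p x) (P.law_m x)

end Par

lemma bh_one {κ x : ℝ} (h1 : 1 / 10 ≤ |x|) (h2 : |x| ≤ π - 1 / 10) : bh κ x = 1 := by
  simp [bh, bb_eq_zero' h1 h2]

/-- The parameters. -/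
noncomputable def kap (α : ℝ) : ℝ :=
  2 * ((tan (π / 4 + α) - (π / 4 + α)) - (tan (π / 4 - α) - (π / 4 - α))) / JJ

noncomputable def LL (α : ℝ) : ℝ := 2 * (tan (π / 4 - α) - (π / 4 - α))

lemma par_eventually : ∀ᶠ α in 𝓝 (0:ℝ), Par (kap α) (LL α) := by
  obtain ⟨M, hM, hb⟩ := exists_bound
  have hc4 : cos (π / 4) ≠ 0 := by rw [cos_pi_div_four]; positivity
  have t1 : ContinuousAt (fun α : ℝ => tan (π / 4 + α)) 0 := by
    apply ContinuousAt.comp (g := tan)
    · simpa using continuousAt_tan.2 hc4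
    · fun_prop
  have t2 : ContinuousAt (fun α : ℝ => tan (π / 4 - α)) 0 := by
    apply ContinuousAt.comp (g := tan)
    · simpa using continuousAt_tan.2 hc4
    · fun_prop
  have ck : ContinuousAt kap 0 := by
    unfold kap
    have := JJ_pos.ne'
    fun_prop
  have cL : ContinuousAt LL 0 := by
    unfold LL
    fun_prop
  have k0 : kap 0 = 0 := by simp [kap]
  have L0 : LL 0 = 2 * (1 - π / 4) := by simp [LL]
  have hpi := pi_gt_three
  have hpi' := pi_lt_d2
  have e1 : ∀ᶠ α in 𝓝 (0:ℝ), |kap α| < min (1 / 2) (1 / (2 * M)) := by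
    have h1 := ck.abs
    have h2 : |kap 0| < min (1 / 2) (1 / (2 * M)) := by
      rw [k0, abs_zero]; positivity
    exact h1.eventually_lt continuousAt_const h2
  have e2 : ∀ᶠ α in 𝓝 (0:ℝ), 0 < LL α :=
    continuousAt_const.eventually_lt cL (by rw [L0]; linarith)
  have e3 : ∀ᶠ α in 𝓝 (0:ℝ), LL α < 2 :=
    cL.eventually_lt continuousAt_const (by rw [L0]; linarith)
  filter_upwards [e1, e2, e3] with α h1 h2 h3
  have h4 := lt_of_lt_of_le h1 (min_le_left _ _)
  have h5 := lt_of_lt_of_le h1 (min_le_right _ _)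
  refine ⟨h4.le, fun x => ?_, h2, h3.le⟩
  rw [abs_mul]
  calc |kap α| * |bb x + deriv (deriv bb) x| ≤ 1 / (2 * M) * M := by
        gcongr
        exact hb x
    _ = 1 / 2 := by field_simp

/-- **The base table.** -/
theorem base_table : ∃ (α c : ℝ) (H h d : ℝ → ℝ), Helper58.Bil.Base α c H h d := by
  have hpi := pi_gt_d2
  have hpi' := pi_lt_d2
  obtain ⟨r, hr, hrP⟩ := Metric.eventually_nhds_iff.1 par_eventually
  obtain ⟨β, hβ0, hβ⟩ : ∃ β > 0, β < min r (1 / 100) := exists_between (by positivity)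
  have hα0 : 0 < β := hβ0
  have hα1 : β < 1 / 100 := lt_of_lt_of_le hβ (min_le_right _ _)
  set α := β with hαdef
  have P : Par (kap α) (LL α) := by
    apply hrP
    rw [Real.dist_eq, sub_zero, abs_of_pos hα0]
    exact lt_of_lt_of_le hβ (min_le_left _ _)
  have dh : deriv (bh (kap α)) = bh1 (kap α) := funext fun x => (bh_d1 _ x).deriv
  have dh1 : deriv (bh1 (kap α)) = bh2 (kap α) := funext fun x => (bh_d2 _ x).deriv
  have dH : deriv (bH P) = bH1 P := funext fun x => (P.bH_deriv x).deriv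
  have hal2 : Helper58.Bil.al2 (π / 4 + α) = π / 4 - α := by
    unfold Helper58.Bil.al2; ring
  -- centre values
  have m1 : ∀ x, |x| ≤ 51 / 100 → dd P x = π / 4 + α := by
    intro x hx
    rw [abs_le] at hx
    apply P.dd_unique (by linarith) (by linarith)
    simp only [sF]
    rw [bI_sub, integral_bb (by linarith) (by linarith) (by linarith) (by linarith),
      bh_one (x := x + (π / 4 + α)) (by rw [abs_of_nonneg (by linarith)]; linarith)
        (by rw [abs_of_nonneg (by linarith)]; linarith),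
      bh_one (x := x - (π / 4 + α)) (by rw [abs_of_nonpos (by linarith)]; linarith)
        (by rw [abs_of_nonpos (by linarith)]; linarith)]
    have hJ := JJ_pos.ne'
    have : kap α * JJ = 2 * ((tan (π / 4 + α) - (π / 4 + α)) - (tan (π / 4 - α) - (π / 4 - α))) := by
      unfold kap; field_simp
    rw [this]
    unfold LL
    ring
  have m2 : ∀ x, |x - π / 2| ≤ 51 / 100 → dd P x = π / 4 - α := by
    intro x hx
    rw [abs_le] at hx
    apply P.dd_unique (by linarith) (by linarith)
    simp only [sF]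
    rw [bI_sub, integral_bb_zero (by linarith) (by linarith) (by linarith),
      bh_one (x := x + (π / 4 - α)) (by rw [abs_of_nonneg (by linarith)]; linarith)
        (by rw [abs_of_nonneg (by linarith)]; linarith),
      bh_one (x := x - (π / 4 - α)) (by rw [abs_of_nonneg (by linarith)]; linarith)
        (by rw [abs_of_nonneg (by linarith)]; linarith)]
    unfold LL
    ring
  have per2 : ∀ {f : ℝ → ℝ}, (∀ x, f (x + π) = f x) → ∀ x, f (x + 2 * π) = f x := by
    intro f hf x
    have : x + 2 * π = x + π + π := by ring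
    rw [this, hf, hf]
  have bH1_per : ∀ x, bH1 P (x + π) = bH1 P x := by
    intro x
    rw [← dH, ← deriv_comp_add_const]
    congr 1
    funext y; exact P.bH_per y
  have dbH1_per : ∀ x, deriv (bH1 P) (x + π) = deriv (bH1 P) x := by
    intro x
    rw [← deriv_comp_add_const]
    congr 1
    funext y; exact bH1_per y
  obtain ⟨c1, hc1, hb1⟩ := Supp.exists_lb (f := fun x => bH P x + deriv (bH1 P) x)
    (P.bH_smooth.continuous.add (contDiff_infty_iff_deriv.1 P.bH1_smooth).2.continuous)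
    (per2 (f := fun x => bH P x + deriv (bH1 P) x) fun x => by
      rw [P.bH_per, dbH1_per]) P.bH_curv
  obtain ⟨c2, hc2, hb2⟩ := Supp.exists_lb (f := fun x => bH P x - bh (kap α) x)
    (P.bH_smooth.continuous.sub (bh_smooth _).continuous)
    (per2 (f := fun x => bH P x - bh (kap α) x) fun x => by
      rw [P.bH_per, bh_per]) (fun x => sub_pos.2 (P.bH_gt x))
  refine ⟨π / 4 + α, min (1 / 2) (min c1 c2), bH P, bh (kap α), dd P, ?_⟩
  have hcm1 : min (1 / 2) (min c1 c2) ≤ 1 / 2 := min_le_left _ _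
  have hcm2 : min (1 / 2) (min c1 c2) ≤ c1 := (min_le_right _ _).trans (min_le_left _ _)
  have hcm3 : min (1 / 2) (min c1 c2) ≤ c2 := (min_le_right _ _).trans (min_le_right _ _)
  exact
    { α1 := by linarith
      α2 := by linarith
      cpos := by positivity
      sH := P.bH_smooth
      sh := bh_smooth _
      pH := P.bH_per
      ph := bh_per _
      pd := P.dd_per
      eH := P.bH_even
      eh := bh_even _
      ed := P.dd_even
      d0 := P.dd_pos
      d1 := P.dd_lt
      law1 := fun x => by rw [dH]; exact P.law_m x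
      law2 := fun x => by rw [dH]; exact P.law_p x
      mono1 := P.mono_sub
      mono2 := P.mono_add
      h1 := by
        intro ψ hψ
        have h0 : 0 ≤ ψ := by linarith [hψ.1]
        exact bh_one (by rw [abs_of_nonneg h0]; exact hψ.1) (by rw [abs_of_nonneg h0]; exact hψ.2)
      w1 := by
        intro x hx
        have hx' : |x| ≤ 51 / 100 := by
          rw [abs_le]; constructor <;> linarith [hx.1, hx.2]
        refine ⟨?_, m1 x hx'⟩
        unfold bH
        rw [m1 x hx']
        rw [abs_le] at hx'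
        rw [bh_one (x := x + (π / 4 + α)) (by rw [abs_of_nonneg (by linarith)]; linarith)
            (by rw [abs_of_nonneg (by linarith)]; linarith),
          bh_one (x := x - (π / 4 + α)) (by rw [abs_of_nonpos (by linarith)]; linarith)
            (by rw [abs_of_nonpos (by linarith)]; linarith)]
        have : cos (π / 4 + α) ≠ 0 := (cos_pos_of_mem_Ioo ⟨by linarith, by linarith⟩).ne'
        field_simp
        norm_num
      w2 := by
        intro x hx
        have hx' : |x - π / 2| ≤ 51 / 100 := by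
          rw [abs_le]; constructor <;> linarith [hx.1, hx.2]
        rw [hal2]
        refine ⟨?_, m2 x hx'⟩
        unfold bH
        rw [m2 x hx']
        rw [abs_le] at hx'
        rw [bh_one (x := x + (π / 4 - α)) (by rw [abs_of_nonneg (by linarith)]; linarith)
            (by rw [abs_of_nonneg (by linarith)]; linarith),
          bh_one (x := x - (π / 4 - α)) (by rw [abs_of_nonneg (by linarith)]; linarith)
            (by rw [abs_of_nonneg (by linarith)]; linarith)]
        have : cos (π / 4 - α) ≠ 0 := (cos_pos_of_mem_Ioo ⟨by linarith, by linarith⟩).ne'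
        field_simp
        norm_num
      cH := fun x => by rw [dH]; exact hcm2.trans (hb1 x)
      ch := fun x => by rw [dh, dh1]; exact hcm1.trans (P.curv x)
      hH := fun x => by have := hb2 x; linarith
      hc := fun x => hcm1.trans (P.h_lb x) }

end Pool.Agent.Helper76.Caustic
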