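import Mathlib

/-!
# Geometry piece for MP_190632_an (S03949)

From support functions `H` (table) and `h` (caustic) and a function `d` with
`h(θ ± d θ) = H θ cos (d θ) ± H' θ sin (d θ)` to the frozen statement.
-/

set_option autoImplicit false

namespace Pool.Agent.Helper76.Caustic

open Real Set

/-- The plane. -/
abbrev E2 := EuclideanSpace ℝ (Fin 2)

/-- The scalar product of `x` with the unit vector of angle `θ`. -/
noncomputable def ip (x : E2) (θ : ℝ) : ℝ := x 0 * cos θ + x 1 * sin θ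

/-- The point `H e(θ) + H' e'(θ)`. -/
noncomputable def pt (H H1 : ℝ → ℝ) (θ : ℝ) : E2 :=
  !₂[H θ * cos θ - H1 θ * sin θ, H θ * sin θ + H1 θ * cos θ]

/-- The convex body with support function `H`. -/
def body (H : ℝ → ℝ) : Set E2 := {x | ∀ θ, ip x θ ≤ H θ}

/-- `H` is a `C²` support function, with derivatives `H1`, `H2`, and positive curvature radius. -/
structure Supp (H H1 H2 : ℝ → ℝ) : Prop where
  d1 : ∀ x, HasDerivAt H (H1 x) x
  d2 : ∀ x, HasDerivAt H1 (H2 x) x
  per : ∀ x, H (x + 2 * π) = H x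
  pos : ∀ x, 0 < H x + H2 x

variable {H H1 H2 h h1 h2 : ℝ → ℝ}

@[simp] lemma pt_zero (θ : ℝ) : pt H H1 θ 0 = H θ * cos θ - H1 θ * sin θ := by
  simp [pt]

@[simp] lemma pt_one (θ : ℝ) : pt H H1 θ 1 = H θ * sin θ + H1 θ * cos θ := by
  simp [pt]

lemma ip_pt (θ φ : ℝ) : ip (pt H H1 θ) φ = H θ * cos (φ - θ) + H1 θ * sin (φ - θ) := by
  rw [ip, pt_zero, pt_one, cos_sub, sin_sub]; ring

lemma ip_pt_self (θ : ℝ) : ip (pt H H1 θ) θ = H θ := by
  rw [ip_pt]; simp

lemma cont_ip (x : E2) : Continuous (ip x) := by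
  unfold ip; fun_prop

lemma hasDerivAt_ip (x : E2) (θ : ℝ) :
    HasDerivAt (ip x) (-(x 0) * sin θ + x 1 * cos θ) θ := by
  have h1 := (hasDerivAt_cos θ).const_mul (x 0)
  have h2 := (hasDerivAt_sin θ).const_mul (x 1)
  have h3 := h1.add h2
  have e : -(x 0) * sin θ + x 1 * cos θ = x 0 * -sin θ + x 1 * cos θ := by ring
  rw [e]
  exact h3

lemma ip_periodic (x : E2) (θ : ℝ) : ip x (θ + 2 * π) = ip x θ := by
  simp [ip]

lemma ext_E2 {x y : E2} (h0 : x 0 = y 0) (h1 : x 1 = y 1) : x = y := by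
  ext i
  fin_cases i
  · exact h0
  · exact h1

namespace Supp

lemma cont (S : Supp H H1 H2) : Continuous H :=
  continuous_iff_continuousAt.2 fun x => (S.d1 x).continuousAt

lemma cont1 (S : Supp H H1 H2) : Continuous H1 :=
  continuous_iff_continuousAt.2 fun x => (S.d2 x).continuousAt

lemma deriv_F (S : Supp H H1 H2) (φ s : ℝ) :
    HasDerivAt (fun s => sin (φ - s) * H1 s + cos (φ - s) * H s)
      (sin (φ - s) * (H s + H2 s)) s := by
  have hs : HasDerivAt (fun s => φ - s) (-1) s := by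
    simpa using (hasDerivAt_id s).const_sub φ
  have h1 := (hs.sin).mul (S.d2 s)
  have h2 := (hs.cos).mul (S.d1 s)
  have h3 := h1.add h2
  have e : sin (φ - s) * (H s + H2 s) = cos (φ - s) * -1 * H1 s + sin (φ - s) * H2 s
      + (-sin (φ - s) * -1 * H s + cos (φ - s) * H1 s) := by ring
  rw [e]
  exact h3

/-- strictness for `0 < |φ-θ| ≤ π`. -/
lemma strict_aux (S : Supp H H1 H2) {θ φ : ℝ} (hne : φ ≠ θ) (h1 : |φ - θ| ≤ π) :
    H θ * cos (φ - θ) + H1 θ * sin (φ - θ) < H φ := by
  set F : ℝ → ℝ := fun s => sin (φ - s) * H1 s + cos (φ - s) * H s with hF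
  have hFc : Continuous F := by
    have := S.cont; have := S.cont1; fun_prop
  have hd : ∀ s, deriv F s = sin (φ - s) * (H s + H2 s) := fun s => (S.deriv_F φ s).deriv
  have e1 : F φ = H φ := by simp [hF]
  have e2 : F θ = H θ * cos (φ - θ) + H1 θ * sin (φ - θ) := by simp [hF]; ring
  rw [← e1, ← e2]
  rw [abs_le] at h1
  rcases lt_or_gt_of_ne hne with hlt | hgt
  · -- φ < θ
    have : StrictAntiOn F (Icc φ θ) := by
      apply strictAntiOn_of_deriv_neg (convex_Icc _ _) hFc.continuousOn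
      intro s hs
      rw [interior_Icc] at hs
      rw [hd]
      have hneg : sin (φ - s) < 0 := by
        apply sin_neg_of_neg_of_neg_pi_lt <;> linarith [hs.1, hs.2]
      exact mul_neg_of_neg_of_pos hneg (S.pos s)
    exact this ⟨le_refl _, hlt.le⟩ ⟨hlt.le, le_refl _⟩ hlt
  · have : StrictMonoOn F (Icc θ φ) := by
      apply strictMonoOn_of_deriv_pos (convex_Icc _ _) hFc.continuousOn
      intro s hs
      rw [interior_Icc] at hs
      rw [hd]
      have hpos : 0 < sin (φ - s) := by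
        apply sin_pos_of_pos_of_lt_pi <;> linarith [hs.1, hs.2]
      exact mul_pos hpos (S.pos s)
    exact this ⟨le_refl _, hgt.le⟩ ⟨hgt.le, le_refl _⟩ hgt

lemma per_int (S : Supp H H1 H2) (x : ℝ) (n : ℤ) : H (x + n * (2 * π)) = H x := by
  have : Function.Periodic H (2 * π) := S.per
  exact this.int_mul n x

lemma per1 (S : Supp H H1 H2) (x : ℝ) : H1 (x + 2 * π) = H1 x := by
  have a := S.d1 (x + 2 * π)
  have b : HasDerivAt (fun y => H (y + 2 * π)) (H1 (x + 2 * π)) x := by
    have := a.comp_add_const x (2 * π)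
    exact this
  have c : (fun y => H (y + 2 * π)) = H := funext S.per
  rw [c] at b
  exact b.unique (S.d1 x)

/-- The point with normal `θ` is strictly inside the other support half planes. -/
lemma strict (S : Supp H H1 H2) {θ φ : ℝ} (hne : ¬ (cos φ = cos θ ∧ sin φ = sin θ)) :
    ip (pt H H1 θ) φ < H φ := by
  -- choose representative of φ in (θ - π, θ + π]
  obtain ⟨n, hn⟩ : ∃ n : ℤ, |φ + n * (2 * π) - θ| ≤ π := by
    refine ⟨-round ((φ - θ) / (2 * π)), ?_⟩
    have hpi : (0:ℝ) < 2 * π := by positivity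
    have h := abs_sub_round ((φ - θ) / (2 * π))
    have : φ + ((-round ((φ - θ) / (2 * π)) : ℤ) : ℝ) * (2 * π) - θ
        = ((φ - θ) / (2 * π) - round ((φ - θ) / (2 * π))) * (2 * π) := by
      push_cast
      field_simp
      ring
    rw [this, abs_mul, abs_of_pos hpi]
    nlinarith
  have hc : cos (φ + n * (2 * π)) = cos φ := cos_add_int_mul_two_pi φ n
  have hs : sin (φ + n * (2 * π)) = sin φ := sin_add_int_mul_two_pi φ n
  have hne' : φ + n * (2 * π) ≠ θ := by
    intro he
    apply hne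
    rw [← hc, ← hs, he]
    exact ⟨rfl, rfl⟩
  have h1 := S.strict_aux hne' hn
  rw [S.per_int] at h1
  rw [← ip_pt] at h1
  have : ip (pt H H1 θ) (φ + n * (2 * π)) = ip (pt H H1 θ) φ := by
    simp only [ip, hc, hs]
  rwa [this] at h1

lemma pt_mem (S : Supp H H1 H2) (θ : ℝ) : pt H H1 θ ∈ body H := by
  intro φ
  by_cases hne : cos φ = cos θ ∧ sin φ = sin θ
  · -- then H φ = H θ
    have h1 : ip (pt H H1 θ) φ = ip (pt H H1 θ) θ := by
      simp only [ip, hne.1, hne.2]
    rw [h1, ip_pt_self]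
    -- angles equal mod 2π
    have : ∃ n : ℤ, φ = θ + n * (2 * π) := by
      have h2 : (φ : Real.Angle) = θ := by
        apply Real.Angle.cos_sin_inj
        · exact hne.1
        · exact hne.2
      rw [Real.Angle.angle_eq_iff_two_pi_dvd_sub] at h2
      obtain ⟨k, hk⟩ := h2
      exact ⟨k, by linarith⟩
    obtain ⟨n, rfl⟩ := this
    rw [S.per_int]
  · exact (S.strict hne).le

/-- characterisation of boundary points. -/
lemma eq_pt (S : Supp H H1 H2) {x : E2} (hx : x ∈ body H) {θ : ℝ} (he : ip x θ = H θ) :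
    x = pt H H1 θ := by
  have hmin : IsLocalMin (fun φ => H φ - ip x φ) θ := by
    apply Filter.Eventually.of_forall
    intro φ
    have := hx φ
    simp only [he, sub_self]
    linarith
  have hd : HasDerivAt (fun φ => H φ - ip x φ) (H1 θ - (-(x 0) * sin θ + x 1 * cos θ)) θ :=
    (S.d1 θ).sub (hasDerivAt_ip x θ)
  have h0 := hmin.hasDerivAt_eq_zero hd
  have hcs := sin_sq_add_cos_sq θ
  have h2 : H θ = x 0 * cos θ + x 1 * sin θ := by rw [← he]; rfl
  have h3 : H1 θ = -(x 0) * sin θ + x 1 * cos θ := by linarith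
  apply ext_E2
  · rw [pt_zero, h2, h3]
    linear_combination (-(x 0)) * hcs
  · rw [pt_one, h2, h3]
    linear_combination (-(x 1)) * hcs

/-- a positive continuous periodic function is bounded below by a positive constant. -/
lemma exists_lb {f : ℝ → ℝ} (hc : Continuous f) (hp : ∀ x, f (x + 2 * π) = f x)
    (hpos : ∀ x, 0 < f x) : ∃ m > 0, ∀ x, m ≤ f x := by
  have hP : Function.Periodic f (2 * π) := hp
  obtain ⟨x0, hx0, hmin⟩ := isCompact_Icc.exists_isMinOn (s := Icc (0:ℝ) (0 + 2 * π))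
    (nonempty_Icc.2 (by linarith [pi_pos])) hc.continuousOn
  refine ⟨f x0, hpos x0, fun x => ?_⟩
  obtain ⟨y, hy, hxy⟩ := hP.exists_mem_Ico (by positivity : (0:ℝ) < 2 * π) x 0
  rw [hxy]
  exact hmin ⟨hy.1, hy.2.le⟩

end Supp

lemma abs_ip_le (x : E2) (θ : ℝ) : |ip x θ| ≤ ‖x‖ := by
  have h1 : ‖x‖ ^ 2 = x 0 ^ 2 + x 1 ^ 2 := by
    rw [EuclideanSpace.norm_sq_eq]
    simp [Fin.sum_univ_two]
  apply abs_le_of_sq_le_sq _ (norm_nonneg _)
  rw [h1, ip]
  have hcs := sin_sq_add_cos_sq θ
  nlinarith [sq_nonneg (x 0 * sin θ - x 1 * cos θ)]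

lemma ip_add (x y : E2) (θ : ℝ) : ip (x + y) θ = ip x θ + ip y θ := by
  simp [ip]; ring

lemma ip_sub (x y : E2) (θ : ℝ) : ip (x - y) θ = ip x θ - ip y θ := by
  simp [ip]; ring

lemma ip_smul (c : ℝ) (x : E2) (θ : ℝ) : ip (c • x) θ = c * ip x θ := by
  simp [ip]; ring

/-- interior points from a uniform margin. -/
lemma mem_interior_body {H : ℝ → ℝ} {x : E2} {m : ℝ} (hm : 0 < m)
    (hx : ∀ θ, ip x θ + m ≤ H θ) : x ∈ interior (body H) := by
  rw [mem_interior]
  refine ⟨Metric.ball x m, ?_, Metric.isOpen_ball, Metric.mem_ball_self hm⟩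
  intro y hy θ
  have h1 : ip y θ = ip x θ + ip (y - x) θ := by rw [ip_sub]; ring
  have h2 := abs_ip_le (y - x) θ
  have h3 : ‖y - x‖ < m := by simpa [dist_eq_norm] using hy
  have h4 := le_abs_self (ip (y - x) θ)
  have := hx θ
  linarith

lemma isClosed_body (H : ℝ → ℝ) : IsClosed (body H) := by
  have : body H = ⋂ θ, {x | ip x θ ≤ H θ} := by
    ext x; simp [body]
  rw [this]
  apply isClosed_iInter
  intro θ
  apply isClosed_le _ continuous_const
  unfold ip
  fun_prop

lemma convex_body (H : ℝ → ℝ) : Convex ℝ (body H) := by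
  intro x hx y hy a b ha hb hab θ
  have h1 := hx θ
  have h2 := hy θ
  rw [ip_add, ip_smul, ip_smul]
  have : H θ = a * H θ + b * H θ := by rw [← add_mul, hab, one_mul]
  rw [this]
  exact add_le_add (mul_le_mul_of_nonneg_left h1 ha) (mul_le_mul_of_nonneg_left h2 hb)

namespace Supp

lemma isCompact_body (_S : Supp H H1 H2) : IsCompact (body H) := by
  apply Metric.isCompact_of_isClosed_isBounded (isClosed_body H)
  rw [isBounded_iff_forall_norm_le]
  refine ⟨|H 0| + |H π| + |H (π / 2)| + |H (-(π / 2))|, fun x hx => ?_⟩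
  have a0 := hx 0
  have a1 := hx π
  have a2 := hx (π / 2)
  have a3 := hx (-(π / 2))
  simp [ip] at a0 a1 a2 a3
  have b0 := le_abs_self (H 0)
  have b1 := le_abs_self (H π)
  have b2 := le_abs_self (H (π / 2))
  have b3 := le_abs_self (H (-(π / 2)))
  have c0 := abs_nonneg (H 0)
  have c1 := abs_nonneg (H π)
  have c2 := abs_nonneg (H (π / 2))
  have c3 := abs_nonneg (H (-(π / 2)))
  have h1 : ‖x‖ ^ 2 = x 0 ^ 2 + x 1 ^ 2 := by
    rw [EuclideanSpace.norm_sq_eq]
    simp [Fin.sum_univ_two]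
  have d0 : |x 0| ≤ |H 0| + |H π| := by
    rw [abs_le]; constructor <;> linarith
  have d1 : |x 1| ≤ |H (π / 2)| + |H (-(π / 2))| := by
    rw [abs_le]; constructor <;> linarith
  have : ‖x‖ ≤ |x 0| + |x 1| := by
    apply le_of_sq_le_sq _ (by positivity)
    rw [h1]
    nlinarith [sq_abs (x 0), sq_abs (x 1), abs_nonneg (x 0), abs_nonneg (x 1),
      mul_nonneg (abs_nonneg (x 0)) (abs_nonneg (x 1))]
  linarith

lemma mem_interior (S : Supp H H1 H2) {x : E2} (hx : ∀ θ, ip x θ < H θ) :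
    x ∈ interior (body H) := by
  obtain ⟨m, hm, hb⟩ := exists_lb (f := fun θ => H θ - ip x θ) (S.cont.sub (cont_ip x))
    (fun θ => by rw [S.per, ip_periodic]) (fun θ => sub_pos.2 (hx θ))
  exact mem_interior_body hm (fun θ => by have := hb θ; linarith)

lemma lt_of_mem_interior (_S : Supp H H1 H2) {x : E2} (hx : x ∈ interior (body H)) (θ : ℝ) :
    ip x θ < H θ := by
  rw [_root_.mem_interior] at hx
  obtain ⟨U, hU, hUo, hxU⟩ := hx
  obtain ⟨ε, hε, hb⟩ := Metric.isOpen_iff.1 hUo x hxU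
  let y : E2 := x + (ε / 2) • (!₂[cos θ, sin θ] : E2)
  have hn : ‖(!₂[cos θ, sin θ] : E2)‖ = 1 := by
    rw [EuclideanSpace.norm_eq]
    simp [Fin.sum_univ_two]
  have hy : y ∈ Metric.ball x ε := by
    simp only [y, Metric.mem_ball, dist_eq_norm, add_sub_cancel_left, norm_smul, hn, mul_one]
    rw [Real.norm_eq_abs, abs_of_pos (by linarith)]
    linarith
  have := hU (hb hy) θ
  have e1 : ip (!₂[cos θ, sin θ] : E2) θ = 1 := by
    simp only [ip]
    simp
    have := sin_sq_add_cos_sq θ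
    nlinarith
  simp only [y, ip_add, ip_smul, e1] at this
  linarith

lemma frontier_body (S : Supp H H1 H2) : frontier (body H) = range (pt H H1) := by
  rw [(isClosed_body H).frontier_eq]
  ext x
  constructor
  · rintro ⟨hx, hx'⟩
    by_contra hcon
    apply hx'
    apply S.mem_interior
    intro θ
    apply lt_of_le_of_ne (hx θ)
    intro he
    exact hcon ⟨θ, (S.eq_pt hx he).symm⟩
  · rintro ⟨θ, rfl⟩
    refine ⟨S.pt_mem θ, fun hi => ?_⟩
    have := S.lt_of_mem_interior hi θ
    rw [ip_pt_self] at this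
    exact lt_irrefl _ this

lemma strictConvex_body (S : Supp H H1 H2) : StrictConvex ℝ (body H) := by
  intro x hx y hy hxy a b ha hb hab
  apply S.mem_interior
  intro θ
  rw [ip_add, ip_smul, ip_smul]
  have h1 := hx θ
  have h2 := hy θ
  have hH : H θ = a * H θ + b * H θ := by rw [← add_mul, hab, one_mul]
  rcases lt_or_eq_of_le h1 with h1' | h1'
  · rw [hH]
    exact add_lt_add_of_lt_of_le (mul_lt_mul_of_pos_left h1' ha)
      (mul_le_mul_of_nonneg_left h2 hb.le)
  · rcases lt_or_eq_of_le h2 with h2' | h2'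
    · rw [hH]
      exact add_lt_add_of_le_of_lt (mul_le_mul_of_nonneg_left h1 ha.le)
        (mul_lt_mul_of_pos_left h2' hb)
    · exact absurd ((S.eq_pt hx h1').trans (S.eq_pt hy h2').symm) hxy

/-- Only two support lines of `body h` pass through an outer point. -/
lemma two_lines (S : Supp h h1 h2) (hpos : ∀ θ, 0 < h θ) {g : E2} {θ d ψ : ℝ}
    (hd0 : 0 < d) (hd1 : d < π / 2)
    (hp : ip g (θ + d) = h (θ + d)) (hm : ip g (θ - d) = h (θ - d)) (hψ : ip g ψ = h ψ) :
    (cos ψ = cos (θ + d) ∧ sin ψ = sin (θ + d)) ∨ (cos ψ = cos (θ - d) ∧ sin ψ = sin (θ - d)) := by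
  by_contra hcon
  push Not at hcon
  obtain ⟨hc1, hc2⟩ := hcon
  have hc1' : ¬ (cos ψ = cos (θ + d) ∧ sin ψ = sin (θ + d)) := fun hh => hc1 hh.1 hh.2
  have hc2' : ¬ (cos ψ = cos (θ - d) ∧ sin ψ = sin (θ - d)) := fun hh => hc2 hh.1 hh.2
  have hs2 : 0 < sin (2 * d) := sin_pos_of_pos_of_lt_pi (by linarith) (by linarith)
  -- the key identity
  have key : ∀ x : E2, sin (2 * d) * ip x ψ
      = sin (d - (ψ - θ)) * ip x (θ - d) + sin (d + (ψ - θ)) * ip x (θ + d) := by
    intro x
    have k1 : sin (2 * d) * cos ψ = sin (d - (ψ - θ)) * cos (θ - d)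
        + sin (d + (ψ - θ)) * cos (θ + d) := by
      have e1 : sin (d - (ψ - θ)) = sin (θ + d) * cos ψ - cos (θ + d) * sin ψ := by
        rw [← sin_sub]; congr 1; ring
      have e2 : sin (d + (ψ - θ)) = sin ψ * cos (θ - d) - cos ψ * sin (θ - d) := by
        rw [← sin_sub]; congr 1; ring
      have e3 : sin (2 * d) = sin (θ + d) * cos (θ - d) - cos (θ + d) * sin (θ - d) := by
        rw [← sin_sub]; congr 1; ring
      rw [e1, e2, e3]
      ring
    have k2 : sin (2 * d) * sin ψ = sin (d - (ψ - θ)) * sin (θ - d)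
        + sin (d + (ψ - θ)) * sin (θ + d) := by
      have e1 : sin (d - (ψ - θ)) = sin (θ + d) * cos ψ - cos (θ + d) * sin ψ := by
        rw [← sin_sub]; congr 1; ring
      have e2 : sin (d + (ψ - θ)) = sin ψ * cos (θ - d) - cos ψ * sin (θ - d) := by
        rw [← sin_sub]; congr 1; ring
      have e3 : sin (2 * d) = sin (θ + d) * cos (θ - d) - cos (θ + d) * sin (θ - d) := by
        rw [← sin_sub]; congr 1; ring
      rw [e1, e2, e3]
      ring
    simp only [ip]
    linear_combination (x 0) * k1 + (x 1) * k2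
  -- the two given directions are different
  have hpm : ¬ (cos (θ - d) = cos (θ + d) ∧ sin (θ - d) = sin (θ + d)) := by
    rintro ⟨e1, e2⟩
    have e3 : sin (2 * d) = sin (θ + d) * cos (θ - d) - cos (θ + d) * sin (θ - d) := by
      rw [← sin_sub]; congr 1; ring
    rw [e1, e2] at e3
    linarith [mul_comm (sin (θ + d)) (cos (θ + d))]
  set A := sin (d - (ψ - θ)) with hA
  set B := sin (d + (ψ - θ)) with hB
  have kg := key g
  rw [hp, hm, hψ] at kg
  have hψp := hpos ψ
  have hpp := hpos (θ + d)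
  have hmp := hpos (θ - d)
  -- if A = 0
  have uniq : ∀ {c φ : ℝ}, sin (2 * d) * cos ψ = c * cos φ → sin (2 * d) * sin ψ = c * sin φ →
      0 < c → cos ψ = cos φ ∧ sin ψ = sin φ := by
    intro c φ h1 h2 hc
    have h3 : sin (2 * d) ^ 2 = c ^ 2 := by
      have i1 := sin_sq_add_cos_sq ψ
      have i2 := sin_sq_add_cos_sq φ
      calc sin (2 * d) ^ 2 = sin (2 * d) ^ 2 * (sin ψ ^ 2 + cos ψ ^ 2) := by rw [i1, mul_one]
        _ = (sin (2 * d) * sin ψ) ^ 2 + (sin (2 * d) * cos ψ) ^ 2 := by ring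
        _ = (c * sin φ) ^ 2 + (c * cos φ) ^ 2 := by rw [h1, h2]
        _ = c ^ 2 * (sin φ ^ 2 + cos φ ^ 2) := by ring
        _ = c ^ 2 := by rw [i2, mul_one]
    have h4 : sin (2 * d) = c := by
      exact (sq_eq_sq₀ hs2.le hc.le).1 h3
    rw [h4] at h1 h2
    exact ⟨mul_left_cancel₀ hc.ne' h1, mul_left_cancel₀ hc.ne' h2⟩
  have ke0 := key (!₂[1, 0] : E2)
  have ke1 := key (!₂[0, 1] : E2)
  simp [ip] at ke0 ke1
  rcases lt_trichotomy A 0 with hA0 | hA0 | hA0
  · rcases lt_trichotomy B 0 with hB0 | hB0 | hB0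
    · nlinarith [mul_pos hs2 hψp, mul_pos (neg_pos.2 hA0) hmp, mul_pos (neg_pos.2 hB0) hpp]
    · rw [hB0] at kg
      nlinarith [mul_pos hs2 hψp, mul_pos (neg_pos.2 hA0) hmp]
    · -- A < 0 < B : B * e(θ+d) = sin 2d e ψ + (-A) e (θ-d)
      have k := key (pt h h1 (θ + d))
      rw [ip_pt_self] at k
      have s1 : ip (pt h h1 (θ + d)) ψ < h ψ := S.strict hc1'
      have s2 : ip (pt h h1 (θ + d)) (θ - d) < h (θ - d) := S.strict hpm
      nlinarith [mul_pos hs2 (sub_pos.2 s1), mul_pos (neg_pos.2 hA0) (sub_pos.2 s2)]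
  · rw [hA0] at kg ke0 ke1
    have hB0 : 0 < B := by
      by_contra hcon
      push Not at hcon
      nlinarith [mul_pos hs2 hψp, mul_nonneg (neg_nonneg.2 hcon) hpp.le]
    simp only [zero_mul, zero_add] at ke0 ke1
    exact hc1' (uniq ke0 ke1 hB0)
  · rcases lt_trichotomy B 0 with hB0 | hB0 | hB0
    · have k := key (pt h h1 (θ - d))
      rw [ip_pt_self] at k
      have s1 : ip (pt h h1 (θ - d)) ψ < h ψ := S.strict hc2'
      have s2 : ip (pt h h1 (θ - d)) (θ + d) < h (θ + d) :=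
        S.strict (fun hh => hpm ⟨hh.1.symm, hh.2.symm⟩)
      nlinarith [mul_pos hs2 (sub_pos.2 s1), mul_pos (neg_pos.2 hB0) (sub_pos.2 s2)]
    · rw [hB0] at ke0 ke1
      simp only [zero_mul, add_zero] at ke0 ke1
      exact hc2' (uniq ke0 ke1 hA0)
    · have k := key (pt h h1 ψ)
      rw [ip_pt_self] at k
      have s1 : ip (pt h h1 ψ) (θ - d) < h (θ - d) :=
        S.strict (fun hh => hc2' ⟨hh.1.symm, hh.2.symm⟩)
      have s2 : ip (pt h h1 ψ) (θ + d) < h (θ + d) :=
        S.strict (fun hh => hc1' ⟨hh.1.symm, hh.2.symm⟩)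
      nlinarith [mul_pos hA0 (sub_pos.2 s1), mul_pos hB0 (sub_pos.2 s2)]

end Supp

/-- reflection in the first axis -/
noncomputable def refl0 (x : E2) : E2 := !₂[x 0, -(x 1)]

lemma ip_refl0 (x : E2) (θ : ℝ) : ip (refl0 x) θ = ip x (-θ) := by
  simp [ip, refl0]

lemma refl0_refl0 (x : E2) : refl0 (refl0 x) = x := by
  apply ext_E2 <;> simp [refl0]

lemma inner_E2 (x y : E2) : inner ℝ x y = x 0 * y 0 + x 1 * y 1 := by
  rw [PiLp.inner_apply]
  simp [Fin.sum_univ_two]
  ring

lemma hasDerivAt_E2 {f : ℝ → E2} {f' : E2} {x : ℝ} (h0 : HasDerivAt (fun t => f t 0) (f' 0) x)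
    (h1 : HasDerivAt (fun t => f t 1) (f' 1) x) : HasDerivAt f f' x := by
  have e : f = fun t => (f t 0) • (!₂[1, 0] : E2) + (f t 1) • (!₂[0, 1] : E2) := by
    funext t
    apply ext_E2 <;> simp
  have e' : f' = (f' 0) • (!₂[1, 0] : E2) + (f' 1) • (!₂[0, 1] : E2) := by
    apply ext_E2 <;> simp
  rw [e, e']
  exact (h0.smul_const _).add (h1.smul_const _)

lemma refl_formula : (fun x : E2 => (0 : E2) + (2 * inner ℝ (x - 0) (!₂[1, 0] : E2) /
    inner ℝ (!₂[1, 0] : E2) (!₂[1, 0] : E2)) • (!₂[1, 0] : E2) - (x - 0)) = refl0 := by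
  funext x
  rw [inner_E2, inner_E2]
  apply ext_E2
  · simp [refl0]
    ring
  · simp [refl0]

lemma inner_ip (x : E2) (r ψ : ℝ) : inner ℝ (!₂[r * cos ψ, r * sin ψ] : E2) x = r * ip x ψ := by
  simp [ip, PiLp.inner_apply, Fin.sum_univ_two]
  ring

lemma exists_polar (n : E2) (hn : n ≠ 0) :
    ∃ r ψ : ℝ, 0 < r ∧ n = !₂[r * cos ψ, r * sin ψ] := by
  let z : ℂ := ⟨n 0, n 1⟩
  have hz : z ≠ 0 := by
    intro h0
    apply hn
    have h1 := congrArg Complex.re h0
    have h2 := congrArg Complex.im h0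
    simp [z] at h1 h2
    exact ext_E2 (by simpa using h1) (by simpa using h2)
  refine ⟨‖z‖, z.arg, norm_pos_iff.2 hz, ?_⟩
  apply ext_E2
  · simp [Complex.norm_mul_cos_arg, z]
  · simp [Complex.norm_mul_sin_arg, z]

/-- unit tangent of angle `θ` -/
noncomputable def et (θ : ℝ) : E2 := !₂[-sin θ, cos θ]

lemma eq_smul_et {v : E2} {ψ : ℝ} (h0 : ip v ψ = 0) : v = (-(v 0) * sin ψ + v 1 * cos ψ) • et ψ := by
  have hcs := sin_sq_add_cos_sq ψ
  simp only [ip] at h0
  apply ext_E2
  · simp [et]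
    linear_combination (-(v 0)) * hcs + cos ψ * h0
  · simp [et]
    linear_combination (-(v 1)) * hcs + sin ψ * h0

lemma ip_et (θ φ : ℝ) : ip (et θ) φ = sin (φ - θ) := by
  simp [ip, et, sin_sub]
  ring

lemma ip_et_self (θ : ℝ) : ip (et θ) θ = 0 := by
  rw [ip_et]; simp

lemma et_ne (θ : ℝ) : et θ ≠ 0 := by
  intro h0
  have h1 := congrArg (fun x : E2 => x 0) h0
  have h2 := congrArg (fun x : E2 => x 1) h0
  simp [et] at h1 h2
  have := sin_sq_add_cos_sq θ
  rw [h1, h2] at this
  norm_num at this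

/-- reflection of directions at the tangent of angle `θ` -/
lemma refl_et (θ d : ℝ) (c l : ℝ) (hc : c ≠ 0) :
    (2 * inner ℝ (l • et (θ + d)) (c • et θ) / inner ℝ (c • et θ) (c • et θ)) • (c • et θ)
      - l • et (θ + d) = l • et (θ - d) := by
  have h1 : inner ℝ (l • et (θ + d)) (c • et θ) = l * c * cos d := by
    have : d = (θ + d) - θ := by ring
    conv_rhs => rw [this, cos_sub]
    simp [et, PiLp.inner_apply, Fin.sum_univ_two]
    ring
  have h2 : inner ℝ (c • et θ) (c • et θ) = c * c := by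
    rw [inner_E2]
    simp [et]
    have := sin_sq_add_cos_sq θ
    linear_combination (c * c) * this
  rw [h1, h2]
  have h3 : 2 * (l * c * cos d) / (c * c) = 2 * l * cos d / c := by
    field_simp
  rw [h3, smul_smul]
  have h4 : 2 * l * cos d / c * c = 2 * l * cos d := by field_simp
  rw [h4]
  have hcs := sin_sq_add_cos_sq d
  apply ext_E2
  · simp [et, sin_add, sin_sub]
    ring
  · simp [et, cos_add, cos_sub]
    ring

theorem geom (hH : ContDiff ℝ ((⊤ : ℕ∞) : WithTop ℕ∞) H) (S : Supp H H1 H2) (s : Supp h h1 h2)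
    (hpos : ∀ θ, 0 < h θ) (hlt : ∀ θ, h θ < H θ) (d : ℝ → ℝ)
    (hd0 : ∀ θ, 0 < d θ) (hd1 : ∀ θ, d θ < π / 2)
    (hp : ∀ θ, h (θ + d θ) = H θ * cos (d θ) + H1 θ * sin (d θ))
    (hm : ∀ θ, h (θ - d θ) = H θ * cos (d θ) - H1 θ * sin (d θ))
    (heven : ∀ θ, H (-θ) = H θ) (hne : ∃ θ, h (-θ) ≠ h θ) :
    ∃ (K D : Set (EuclideanSpace ℝ (Fin 2))) (γ : ℝ → EuclideanSpace ℝ (Fin 2))
      (a u : EuclideanSpace ℝ (Fin 2)),
      IsCompact K ∧ StrictConvex ℝ K ∧ (interior K).Nonempty ∧
      ContDiff ℝ ((⊤ : ℕ∞) : WithTop ℕ∞) γ ∧ Function.Periodic γ 1 ∧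
      Set.InjOn γ (Set.Ico 0 1) ∧ (∀ t : ℝ, deriv γ t ≠ 0) ∧
      Set.range γ = frontier K ∧
      IsCompact D ∧ Convex ℝ D ∧ (interior D).Nonempty ∧ D ⊆ interior K ∧
      (∀ p ∈ frontier K, ∀ t : ℝ, p ≠ γ t →
        ((∃ s : ℝ, p + s • (γ t - p) ∈ D) ∧
          ∃ n : EuclideanSpace ℝ (Fin 2), n ≠ 0 ∧ inner ℝ n (γ t - p) = 0 ∧
            ∀ y ∈ D, inner ℝ n (y - p) ≤ 0) →
        ((∃ s : ℝ, γ t + s • ((2 * inner ℝ (γ t - p) (deriv γ t) /
              inner ℝ (deriv γ t) (deriv γ t)) • deriv γ t - (γ t - p)) ∈ D) ∧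
          ∃ n : EuclideanSpace ℝ (Fin 2), n ≠ 0 ∧
            inner ℝ n ((2 * inner ℝ (γ t - p) (deriv γ t) /
              inner ℝ (deriv γ t) (deriv γ t)) • deriv γ t - (γ t - p)) = 0 ∧
            ∀ y ∈ D, inner ℝ n (y - γ t) ≤ 0)) ∧
      u ≠ 0 ∧
      (fun x => a + (2 * inner ℝ (x - a) u / inner ℝ u u) • u - (x - a)) '' frontier K
        = frontier K ∧
      (fun x => a + (2 * inner ℝ (x - a) u / inner ℝ u u) • u - (x - a)) '' frontier D
        ≠ frontier D := by
  have hderivγ : ∀ t : ℝ, HasDerivAt (fun t : ℝ => pt H H1 (2 * π * t))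
      ((2 * π * (H (2 * π * t) + H2 (2 * π * t))) • et (2 * π * t)) t := by
    intro t
    have hl : HasDerivAt (fun t : ℝ => 2 * π * t) (2 * π) t := by
      simpa using (hasDerivAt_id t).const_mul (2 * π)
    have a1 := (S.d1 (2 * π * t)).comp t hl
    have a2 := (S.d2 (2 * π * t)).comp t hl
    have a3 := (hasDerivAt_cos (2 * π * t)).comp t hl
    have a4 := (hasDerivAt_sin (2 * π * t)).comp t hl
    apply hasDerivAt_E2
    · have := (a1.mul a3).sub (a2.mul a4)
      have e : (fun t : ℝ => pt H H1 (2 * π * t) 0) = fun t =>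
          H (2 * π * t) * cos (2 * π * t) - H1 (2 * π * t) * sin (2 * π * t) := by
        funext t; rw [pt_zero]
      have e2 : ((2 * π * (H (2 * π * t) + H2 (2 * π * t))) • et (2 * π * t)) 0 =
          H1 (2 * π * t) * (2 * π) * cos (2 * π * t) + H (2 * π * t) * (-sin (2 * π * t) * (2 * π))
          - (H2 (2 * π * t) * (2 * π) * sin (2 * π * t)
            + H1 (2 * π * t) * (cos (2 * π * t) * (2 * π))) := by
        simp [et]
        ring
      rw [e, e2]
      exact this
    · have := (a1.mul a4).add (a2.mul a3)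
      have e : (fun t : ℝ => pt H H1 (2 * π * t) 1) = fun t =>
          H (2 * π * t) * sin (2 * π * t) + H1 (2 * π * t) * cos (2 * π * t) := by
        funext t; rw [pt_one]
      have e2 : ((2 * π * (H (2 * π * t) + H2 (2 * π * t))) • et (2 * π * t)) 1 =
          H1 (2 * π * t) * (2 * π) * sin (2 * π * t) + H (2 * π * t) * (cos (2 * π * t) * (2 * π))
          + (H2 (2 * π * t) * (2 * π) * cos (2 * π * t)
            + H1 (2 * π * t) * (-sin (2 * π * t) * (2 * π))) := by
        simp [et]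
        ring
      rw [e, e2]
      exact this
  refine ⟨body H, body h, fun t => pt H H1 (2 * π * t), 0, !₂[1, 0], S.isCompact_body,
    S.strictConvex_body, ?_, ?_, ?_, ?_, ?_, ?_, s.isCompact_body, convex_body h, ?_, ?_, ?_, ?_,
    ?_, ?_⟩
  · -- interior nonempty
    refine ⟨0, S.mem_interior fun θ => ?_⟩
    have := hpos θ
    have := hlt θ
    simp [ip]; linarith
  · -- smooth
    have hd : deriv H = H1 := funext fun x => (S.d1 x).deriv
    have hH1 : ContDiff ℝ ((⊤ : ℕ∞) : WithTop ℕ∞) H1 := by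
      rw [← hd]
      exact (contDiff_infty_iff_deriv.1 hH).2
    have hl : ContDiff ℝ ((⊤ : ℕ∞) : WithTop ℕ∞) (fun t : ℝ => 2 * π * t) := by fun_prop
    have b1 := hH.comp hl
    have b2 := hH1.comp hl
    have b3 : ContDiff ℝ ((⊤ : ℕ∞) : WithTop ℕ∞) (fun t : ℝ => cos (2 * π * t)) :=
      contDiff_cos.comp hl
    have b4 : ContDiff ℝ ((⊤ : ℕ∞) : WithTop ℕ∞) (fun t : ℝ => sin (2 * π * t)) :=
      contDiff_sin.comp hl
    rw [contDiff_euclidean]
    intro i
    fin_cases i
    · simp only [Fin.zero_eta, pt_zero]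
      exact (b1.mul b3).sub (b2.mul b4)
    · simp only [Fin.mk_one, pt_one]
      exact (b1.mul b4).add (b2.mul b3)
  · -- periodic
    intro t
    have e : 2 * π * (t + 1) = 2 * π * t + 2 * π := by ring
    simp only [e]
    apply ext_E2
    · simp [S.per, S.per1]
    · simp [S.per, S.per1]
  · -- injective
    intro t ht t' ht' heq
    by_contra hcon
    simp only at heq
    have hne' : ¬ (cos (2 * π * t') = cos (2 * π * t) ∧ sin (2 * π * t') = sin (2 * π * t)) := by
      rintro ⟨e1, e2⟩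
      have h2 : ((2 * π * t' : ℝ) : Real.Angle) = ((2 * π * t : ℝ) : Real.Angle) :=
        Real.Angle.cos_sin_inj e1 e2
      rw [Real.Angle.angle_eq_iff_two_pi_dvd_sub] at h2
      obtain ⟨k, hk⟩ := h2
      have hpi := pi_pos
      have h3 : t' - t = k := by
        have : 2 * π * (t' - t) = 2 * π * k := by linarith
        exact mul_left_cancel₀ (by positivity) this
      have h4 : (k : ℝ) < 1 := by rw [← h3]; linarith [ht'.2, ht.1]
      have h5 : (-1 : ℝ) < k := by rw [← h3]; linarith [ht'.1, ht.2]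
      have h6 : k = 0 := by
        have h7 : k < 1 := by exact_mod_cast h4
        have h8 : -1 < k := by exact_mod_cast h5
        omega
      rw [h6] at h3
      apply hcon
      simp at h3
      linarith
    have := S.strict hne'
    rw [heq, ip_pt_self] at this
    exact lt_irrefl _ this
  · -- derivative nonzero
    intro t
    rw [(hderivγ t).deriv]
    apply smul_ne_zero _ (et_ne _)
    have := S.pos (2 * π * t)
    have := pi_pos
    positivity
  · -- range
    rw [S.frontier_body]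
    ext x
    constructor
    · rintro ⟨t, rfl⟩
      exact ⟨_, rfl⟩
    · rintro ⟨θ, rfl⟩
      refine ⟨θ / (2 * π), ?_⟩
      have : 2 * π * (θ / (2 * π)) = θ := by field_simp
      simp only [this]
  · refine ⟨0, s.mem_interior fun θ => ?_⟩
    have := hpos θ
    simp [ip]; linarith
  · intro x hx
    exact S.mem_interior fun θ => lt_of_le_of_lt (hx θ) (hlt θ)
  · -- billiard property
    intro p _ t hpt
    rintro ⟨⟨r, hr⟩, n, hn, hn0, hnD⟩
    have hdt := (hderivγ t).deriv
    obtain ⟨ρ, ψ, hρ, rfl⟩ := exists_polar n hn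
    set θ := 2 * π * t with hθ
    set g := pt H H1 θ with hg
    rw [hdt]
    have hpi := pi_pos
    have hc : (2 * π * (H θ + H2 θ)) ≠ 0 := by
      have := S.pos θ
      positivity
    set c := 2 * π * (H θ + H2 θ) with hcdef
    -- `g` lies on the support line of direction ψ
    have hv0 : ip (g - p) ψ = 0 := by
      rw [inner_ip] at hn0
      rcases mul_eq_zero.1 hn0 with h0 | h0
      · exact absurd h0 hρ.ne'
      · exact h0
    have hD : ∀ y ∈ body h, ip y ψ ≤ ip p ψ := by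
      intro y hy
      have := hnD y hy
      rw [inner_ip] at this
      have h2 : ip (y - p) ψ ≤ 0 := by
        by_contra hcon
        push Not at hcon
        have := mul_pos hρ hcon
        linarith
      rw [ip_sub] at h2
      linarith
    have hψ : ip g ψ = h ψ := by
      have e1 : ip g ψ = ip p ψ := by rw [ip_sub] at hv0; linarith
      have e2 : ip (p + r • (g - p)) ψ ≤ h ψ := hr ψ
      rw [ip_add, ip_smul, hv0, mul_zero, add_zero] at e2
      have e3 := hD _ (s.pt_mem ψ)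
      rw [ip_pt_self] at e3
      linarith
    have hgp : ip g (θ + d θ) = h (θ + d θ) := by
      rw [hg, ip_pt, hp]
      simp
    have hgm : ip g (θ - d θ) = h (θ - d θ) := by
      rw [hg, ip_pt, hm]
      have : θ - d θ - θ = -(d θ) := by ring
      rw [this, cos_neg, sin_neg]
      ring
    -- the general step
    have step : ∀ δ : ℝ, ip g (θ + δ) = h (θ + δ) → ip g (θ - δ) = h (θ - δ) →
        (cos ψ = cos (θ + δ) ∧ sin ψ = sin (θ + δ)) →
        ((∃ s : ℝ, g + s • ((2 * inner ℝ (g - p) (c • et θ) /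
              inner ℝ (c • et θ) (c • et θ)) • (c • et θ) - (g - p)) ∈ body h) ∧
          ∃ n : EuclideanSpace ℝ (Fin 2), n ≠ 0 ∧
            inner ℝ n ((2 * inner ℝ (g - p) (c • et θ) /
              inner ℝ (c • et θ) (c • et θ)) • (c • et θ) - (g - p)) = 0 ∧
            ∀ y ∈ body h, inner ℝ n (y - g) ≤ 0) := by
      intro δ hδp hδm hψδ
      have hv1 : ip (g - p) (θ + δ) = 0 := by
        rw [← hv0]; simp only [ip, hψδ.1, hψδ.2]
      obtain ⟨l, hl⟩ : ∃ l : ℝ, g - p = l • et (θ + δ) := ⟨_, eq_smul_et hv1⟩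
      have hl0 : l ≠ 0 := by
        rintro rfl
        rw [zero_smul] at hl
        exact hpt (sub_eq_zero.1 hl).symm
      rw [hl, refl_et θ δ c l hc]
      constructor
      · -- the contact point
        have k1 : ip (pt h h1 (θ - δ) - g) (θ - δ) = 0 := by
          rw [ip_sub, ip_pt_self, hδm, sub_self]
        obtain ⟨μ, hμ⟩ : ∃ μ : ℝ, pt h h1 (θ - δ) - g = μ • et (θ - δ) := ⟨_, eq_smul_et k1⟩
        refine ⟨μ / l, ?_⟩
        have h2 : g + (μ / l) • l • et (θ - δ) = pt h h1 (θ - δ) := by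
          rw [smul_smul, div_mul_cancel₀ _ hl0, ← hμ]
          abel
        rw [h2]
        exact s.pt_mem _
      · refine ⟨!₂[1 * cos (θ - δ), 1 * sin (θ - δ)], ?_, ?_, ?_⟩
        · intro h0
          have h1 := congrArg (fun x : E2 => x 0) h0
          have h2 := congrArg (fun x : E2 => x 1) h0
          simp at h1 h2
          have := sin_sq_add_cos_sq (θ - δ)
          rw [h1, h2] at this
          norm_num at this
        · rw [inner_ip, ip_smul, ip_et_self]
          ring
        · intro y hy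
          rw [inner_ip, ip_sub, hδm, one_mul]
          linarith [hy (θ - δ)]
    rcases s.two_lines hpos (hd0 θ) (hd1 θ) hgp hgm hψ with hcase | hcase
    · exact step (d θ) hgp hgm hcase
    · have e1 : θ - d θ = θ + -(d θ) := by ring
      have e2 : θ - -(d θ) = θ + d θ := by ring
      exact step (-(d θ)) (by rw [← e1]; exact hgm) (by rw [e2]; exact hgp) (by rw [← e1]; exact hcase)
  · -- u ≠ 0
    intro h0
    have := congrArg (fun x : E2 => x 0) h0
    simp at this
  · -- K symmetric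
    rw [refl_formula, S.frontier_body]
    have hodd : ∀ θ, H1 (-θ) = -H1 θ := by
      intro θ
      have e1 : HasDerivAt (fun x => H (-x)) (-(H1 (-θ))) θ := by
        have := (S.d1 (-θ)).comp θ (hasDerivAt_neg θ)
        rw [mul_neg_one] at this
        exact this
      have e2 : (fun x => H (-x)) = H := funext heven
      rw [e2] at e1
      have := e1.unique (S.d1 θ)
      linarith
    have e3 : ∀ θ, refl0 (pt H H1 θ) = pt H H1 (-θ) := by
      intro θ
      apply ext_E2
      · simp [refl0, heven, hodd]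
      · simp [refl0, heven, hodd]
        ring
    ext x
    constructor
    · rintro ⟨_, ⟨θ, rfl⟩, rfl⟩
      exact ⟨-θ, (e3 θ).symm⟩
    · rintro ⟨θ, rfl⟩
      refine ⟨pt H H1 (-θ), ⟨-θ, rfl⟩, ?_⟩
      rw [e3, neg_neg]
  · -- D not symmetric
    rw [refl_formula]
    intro heq
    obtain ⟨θ0, hθ0⟩ := hne
    have key : ∀ θ, h θ ≤ h (-θ) := by
      intro θ
      have h1 : pt h h1 θ ∈ frontier (body h) := by rw [s.frontier_body]; exact ⟨θ, rfl⟩
      rw [← heq] at h1
      obtain ⟨x, hx, hx2⟩ := h1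
      have h3 : x ∈ body h := by
        have := (isClosed_body h).frontier_subset hx
        exact this
      have h4 : h θ = ip x (-θ) := by
        rw [← ip_refl0, hx2, ip_pt_self]
      rw [h4]
      exact h3 (-θ)
    apply hθ0
    apply le_antisymm
    · have := key (-θ0); rwa [neg_neg] at this
    · exact key θ0

end Pool.Agent.Helper76.Caustic
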