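import Pool.Agent.Helper76.Caustic.Geom
import Pool.Agent.Helper58.Bil.GeoDefs

/-! The geometric theorem from `GeomHyp` (MP_190632_an). -/

set_option autoImplicit false

namespace Pool.Agent.Helper76.Caustic

open Real Set

theorem geom_of_hyp {H h d : ℝ → ℝ} (g : Helper58.Bil.GeomHyp H h d) :
    ∃ (K D : Set (EuclideanSpace ℝ (Fin 2))) (γ : ℝ → EuclideanSpace ℝ (Fin 2))
      (a u : EuclideanSpace ℝ (Fin 2)),
      IsCompact K ∧ StrictConvex ℝ K ∧ (interior K).Nonempty ∧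
      ContDiff ℝ ((⊤ : ℕ∞) : WithTop ℕ∞) γ ∧ Function.Periodic γ 1 ∧
      Set.InjOn γ (Set.Ico 0 1) ∧ (∀ t : ℝ, deriv γ t ≠ 0) ∧
      Set.range γ = frontier K ∧
      IsCompact D ∧ Convex ℝ D ∧ (interior D).Nonempty ∧ D ⊆ interior K ∧
      (∀ p ∈ frontier K, ∀ t : ℝ, p ≠ γ t →
        ((∃ s : ℝ, p + s • (γ t - p) ∈ D) ∧
          ∃ n : EuclideanSpace ℝ (Fin 2), n ≠ 0 ∧ inner ℝ n (γ t - p) = 0 ∧
            ∀ y ∈ D, inner ℝ n (y - p) ≤ 0) →
        ((∃ s : ℝ, γ t + s • ((2 * inner ℝ (γ t - p) (deriv γ t) /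
              inner ℝ (deriv γ t) (deriv γ t)) • deriv γ t - (γ t - p)) ∈ D) ∧
          ∃ n : EuclideanSpace ℝ (Fin 2), n ≠ 0 ∧
            inner ℝ n ((2 * inner ℝ (γ t - p) (deriv γ t) /
              inner ℝ (deriv γ t) (deriv γ t)) • deriv γ t - (γ t - p)) = 0 ∧
            ∀ y ∈ D, inner ℝ n (y - γ t) ≤ 0)) ∧
      u ≠ 0 ∧
      (fun x => a + (2 * inner ℝ (x - a) u / inner ℝ u u) • u - (x - a)) '' frontier K
        = frontier K ∧
      (fun x => a + (2 * inner ℝ (x - a) u / inner ℝ u u) • u - (x - a)) '' frontier D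
        ≠ frontier D := by
  have sup : ∀ {f : ℝ → ℝ}, ContDiff ℝ ((⊤ : ℕ∞) : WithTop ℕ∞) f →
      Function.Periodic f (2 * π) → (∀ x, 0 < f x + deriv (deriv f) x) →
      Supp f (deriv f) (deriv (deriv f)) := by
    intro f hf hp hc
    have hf1 : ContDiff ℝ ((⊤ : ℕ∞) : WithTop ℕ∞) (deriv f) := (contDiff_infty_iff_deriv.1 hf).2
    exact
      { d1 := fun x => ((hf.differentiable (by simp)) x).hasDerivAt
        d2 := fun x => ((hf1.differentiable (by simp)) x).hasDerivAt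
        per := hp
        pos := hc }
  exact geom g.sH (sup g.sH g.pH g.cH) (sup g.sh g.ph g.ch) g.hpos g.hH d g.d0 g.d1
    g.law2 g.law1 g.eH g.ne

end Pool.Agent.Helper76.Caustic
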