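import Pool.Agent.Helper76.Caustic.Geom

/-!
# Consequences of the reflection law for support functions (MP_190632_an)

`h (θ + d) = H cos d + G sin d`, `h (θ - d) = H cos d - G sin d`, `h + h'' > 0`, `0 < d < π/2`
imply `h θ < H θ`, positive tangent lengths, and (if everything is differentiable) `0 < H + H''`.
-/

set_option autoImplicit false

namespace Pool.Agent.Helper76.Caustic

open Real Set

variable {H H1 H2 h h1 h2 : ℝ → ℝ}

lemma Supp.strict_ip (S : Supp h h1 h2) {θ δ : ℝ} (h0 : 0 < δ) (hπ : δ ≤ π) :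
    h θ * cos δ + h1 θ * sin δ < h (θ + δ) ∧ h θ * cos δ - h1 θ * sin δ < h (θ - δ) := by
  constructor
  · have := S.strict_aux (θ := θ) (φ := θ + δ) (by linarith) (by rw [add_sub_cancel_left, abs_of_pos h0]; exact hπ)
    rwa [add_sub_cancel_left] at this
  · have := S.strict_aux (θ := θ) (φ := θ - δ) (by linarith)
      (by rw [sub_sub_cancel_left, abs_neg, abs_of_pos h0]; exact hπ)
    rw [sub_sub_cancel_left, cos_neg, sin_neg] at this
    linarith

/-- The caustic lies strictly inside the table. -/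
theorem h_lt_H (S : Supp h h1 h2) {θ δ A G : ℝ} (h0 : 0 < δ) (hπ : δ < π / 2)
    (hp : h (θ + δ) = A * cos δ + G * sin δ) (hm : h (θ - δ) = A * cos δ - G * sin δ) :
    h θ < A := by
  obtain ⟨k1, k2⟩ := S.strict_ip (θ := θ) h0 (by linarith [pi_pos])
  have hc : 0 < cos δ := cos_pos_of_mem_Ioo ⟨by linarith, hπ⟩
  rw [hp] at k1
  rw [hm] at k2
  have : h θ * cos δ < A * cos δ := by linarith
  exact lt_of_mul_lt_mul_right this hc.le

/-- Positive tangent lengths. -/
theorem lengths_pos (S : Supp h h1 h2) {θ δ A G : ℝ} (h0 : 0 < δ) (hπ : δ < π / 2)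
    (hp : h (θ + δ) = A * cos δ + G * sin δ) (hm : h (θ - δ) = A * cos δ - G * sin δ) :
    0 < (A * sin δ + G * cos δ) - h1 (θ - δ) ∧ 0 < h1 (θ + δ) - (G * cos δ - A * sin δ) := by
  have hs2 : 0 < sin (2 * δ) := sin_pos_of_pos_of_lt_pi (by linarith) (by linarith)
  have hcs := sin_sq_add_cos_sq δ
  constructor
  · have k := (S.strict_ip (θ := θ - δ) (δ := 2 * δ) (by linarith) (by linarith)).1
    have e : θ - δ + 2 * δ = θ + δ := by ring
    rw [e, hp, hm] at k
    have k3 : 0 < sin (2 * δ) * ((A * sin δ + G * cos δ) - h1 (θ - δ)) := by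
      have e2 : sin (2 * δ) * ((A * sin δ + G * cos δ) - h1 (θ - δ))
          = (A * cos δ + G * sin δ) - (A * cos δ - G * sin δ) * cos (2 * δ)
            - h1 (θ - δ) * sin (2 * δ) := by
        rw [sin_two_mul, cos_two_mul]
        linear_combination (2 * A * cos δ) * hcs
      rw [e2]; linarith
    exact (mul_pos_iff_of_pos_left hs2).1 k3
  · have k := (S.strict_ip (θ := θ + δ) (δ := 2 * δ) (by linarith) (by linarith)).2
    have e : θ + δ - 2 * δ = θ - δ := by ring
    rw [e, hp, hm] at k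
    have k3 : 0 < sin (2 * δ) * (h1 (θ + δ) - (G * cos δ - A * sin δ)) := by
      have e2 : sin (2 * δ) * (h1 (θ + δ) - (G * cos δ - A * sin δ))
          = (A * cos δ - G * sin δ) - (A * cos δ + G * sin δ) * cos (2 * δ)
            + h1 (θ + δ) * sin (2 * δ) := by
        rw [sin_two_mul, cos_two_mul]
        linear_combination (2 * A * cos δ) * hcs
      rw [e2]; linarith
    exact (mul_pos_iff_of_pos_left hs2).1 k3

/-- Convexity of the table from the law (mirror equation). -/
theorem curv_pos (S : Supp h h1 h2) {d : ℝ → ℝ} {θ d' G' : ℝ}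
    (h0 : 0 < d θ) (hπ : d θ < π / 2) (hd : HasDerivAt d d' θ)
    (hH : HasDerivAt H (H1 θ) θ) (hH1 : HasDerivAt H1 G' θ)
    (hp : ∀ᶠ x in nhds θ, h (x + d x) = H x * cos (d x) + H1 x * sin (d x))
    (hm : ∀ᶠ x in nhds θ, h (x - d x) = H x * cos (d x) - H1 x * sin (d x)) :
    0 < H θ + G' ∧ 0 < 1 + d' ∧ 0 < 1 - d' := by
  obtain ⟨l1, l2⟩ := lengths_pos S h0 hπ hp.self_of_nhds hm.self_of_nhds
  have hs : 0 < sin (d θ) := sin_pos_of_pos_of_lt_pi h0 (by linarith)
  have dp1 : HasDerivAt (fun x => h (x + d x)) (h1 (θ + d θ) * (1 + d')) θ :=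
    (S.d1 (θ + d θ)).comp θ ((hasDerivAt_id θ).add hd)
  have dm1 : HasDerivAt (fun x => h (x - d x)) (h1 (θ - d θ) * (1 - d')) θ :=
    (S.d1 (θ - d θ)).comp θ ((hasDerivAt_id θ).sub hd)
  have dp2 := (hH.mul hd.cos).add (hH1.mul hd.sin)
  have dm2 := (hH.mul hd.cos).sub (hH1.mul hd.sin)
  have e1 := (dp1.congr_of_eventuallyEq (hp.mono fun x hx => hx.symm)).unique dp2
  have e2 := (dm1.congr_of_eventuallyEq (hm.mono fun x hx => hx.symm)).unique dm2
  -- (1 + d') l2 = (H + G') sin d,  (1 - d') l1 = (H + G') sin d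
  have f1 : (1 + d') * (h1 (θ + d θ) - (H1 θ * cos (d θ) - H θ * sin (d θ)))
      = (H θ + G') * sin (d θ) := by linear_combination e1
  have f2 : (1 - d') * ((H θ * sin (d θ) + H1 θ * cos (d θ)) - h1 (θ - d θ))
      = (H θ + G') * sin (d θ) := by linear_combination -e2
  have hpos : 0 < H θ + G' := by
   by_contra hcon
   push Not at hcon
   have g : (H θ + G') * sin (d θ) ≤ 0 := mul_nonpos_of_nonpos_of_nonneg hcon hs.le
   have g1 : 1 + d' ≤ 0 := by
     by_contra hc
     push Not at hc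
     have := mul_pos hc l2
     linarith
   have g2 : 1 - d' ≤ 0 := by
     by_contra hc
     push Not at hc
     have := mul_pos hc l1
     linarith
   linarith
  have hps := mul_pos hpos hs
  refine ⟨hpos, ?_, ?_⟩
  · rw [← f1] at hps
    exact (mul_pos_iff_of_pos_right l2).1 hps
  · rw [← f2] at hps
    exact (mul_pos_iff_of_pos_right l1).1 hps

end Pool.Agent.Helper76.Caustic
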